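import Mathlib

set_option autoImplicit false

open MeasureTheory Set Filter Topology
open scoped ENNReal

namespace Pool.Agent.Results.MP_87c4bd_co.CoveringEntropy

universe u

variable {Ω : Type u} [MeasurableSpace Ω]

/-- `-log t`, with `-log 0 = ∞` (used for `t ≤ 1` only) -/
noncomputable def nlog (t : ℝ) : ℝ≥0∞ := if t ≤ 0 then ⊤ else ENNReal.ofReal (-Real.log t)

/-- `I`-boxes of dimension `ℓ` -/
def IsBox (I : Set (Set Ω)) (ℓ : ℕ) (B : Set (Fin ℓ → Ω)) : Prop :=
  ∃ J : Fin ℓ → Set Ω, (∀ i, J i ∈ I) ∧ B = univ.pi J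

/-- the least number of `ℓ`-dimensional boxes whose union has measure at least `1 - lam` -/
noncomputable def Ncov (I : Set (Set Ω)) (π : Measure Ω) (lam : ℝ) (ℓ : ℕ) : ℝ≥0∞ :=
  ⨅ (S : Finset (Set (Fin ℓ → Ω))) (_ : (∀ B ∈ S, IsBox I ℓ B) ∧
    1 - lam ≤ (Measure.pi fun _ : Fin ℓ => π).real (⋃ B ∈ S, B)), (S.card : ℝ≥0∞)

/-- the upper covering entropy -/
noncomputable def Hup (I : Set (Set Ω)) (π : Measure Ω) (lam : ℝ) : EReal :=
  limsup (fun ℓ : ℕ => (Ncov I π lam ℓ).log / (ℓ : EReal)) atTop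

/-- the lower covering entropy -/
noncomputable def Hlow (I : Set (Set Ω)) (π : Measure Ω) (lam : ℝ) : EReal :=
  liminf (fun ℓ : ℕ => (Ncov I π lam ℓ).log / (ℓ : EReal)) atTop

/-- a compatible probability measure on a σ-algebra of subsets of `I` -/
structure Compat (I : Set (Set Ω)) (π : Measure Ω) where
  m : MeasurableSpace I
  β : @Measure I m
  prob : @IsProbabilityMeasure I m β
  comp : @NullMeasurableSet (I × Ω) (@Prod.instMeasurableSpace I Ω m _)
    {p : I × Ω | p.2 ∈ (p.1 : Set Ω)} (@Measure.prod I Ω m _ β π)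

/-- the entropy bound by compatible measures -/
noncomputable def Hfull (I : Set (Set Ω)) (π : Measure Ω) : ℝ≥0∞ :=
  ⨅ c : Compat I π, ∫⁻ x, nlog (c.β {J : I | x ∈ (J : Set Ω)}).toReal ∂π

/-- countable convex combinations of indicators of members of `I` -/
def IsCnt (I : Set (Set Ω)) (c : Ω → ℝ≥0∞) : Prop :=
  ∃ (q : ℕ → ℝ≥0∞) (J : ℕ → Set Ω), (∀ k, J k ∈ I) ∧ ∑' k, q k = 1 ∧
    c = fun x => ∑' k, q k * (J k).indicator 1 x

/-- the entropy bound by countable convex combinations -/
noncomputable def Hcnt (I : Set (Set Ω)) (π : Measure Ω) : ℝ≥0∞ :=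
  ⨅ (c : Ω → ℝ≥0∞) (_ : IsCnt I c), ∫⁻ x, nlog (c x).toReal ∂π

/-! ### Step A: dual certificates give lower bounds of the covering numbers -/

theorem low_bound {π : Measure Ω} [IsProbabilityMeasure π] {I : Set (Set Ω)}
    (hI : ∀ J ∈ I, MeasurableSet J) {b : Ω → ℝ} (hb : Measurable b) {c₁ c₂ : ℝ} (hc₁ : 0 < c₁)
    (hb1 : ∀ x, c₁ ≤ b x) (hb2 : ∀ x, b x ≤ c₂) (hJ : ∀ J ∈ I, ∫ x in J, (b x)⁻¹ ∂π ≤ 1)
    {lam : ℝ} (hlam : lam < 1) {δ : ℝ} (hδ : 0 < δ) :
    (((∫ x, -Real.log (b x) ∂π) - 2 * δ : ℝ) : EReal) ≤ Hlow I π lam := by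
  set φ := ∫ x, -Real.log (b x) ∂π with hφ
  have hbpos : ∀ x, 0 < b x := fun x => hc₁.trans_le (hb1 x)
  -- bound of the logarithm
  obtain ⟨L, hL1, hL⟩ : ∃ L : ℝ, 1 ≤ L ∧ ∀ x, |Real.log (b x)| ≤ L := by
    refine ⟨max 1 (max (-Real.log c₁) (Real.log c₂)), le_max_left _ _, fun x => ?_⟩
    rw [abs_le]
    have h1 := Real.log_le_log hc₁ (hb1 x)
    have h2 := Real.log_le_log (hbpos x) (hb2 x)
    have h3 : -Real.log c₁ ≤ max 1 (max (-Real.log c₁) (Real.log c₂)) :=
      (le_max_left _ _).trans (le_max_right _ _)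
    have h4 : Real.log c₂ ≤ max 1 (max (-Real.log c₁) (Real.log c₂)) :=
      (le_max_right _ _).trans (le_max_right _ _)
    constructor <;> linarith
  have hL0 : 0 < L := by linarith
  have hlogm : Measurable fun x => Real.log (b x) := Real.measurable_log.comp hb
  have hlogi : Integrable (fun x => Real.log (b x)) π :=
    Integrable.of_bound hlogm.aestronglyMeasurable L (Eventually.of_forall fun x => hL x)
  -- the exponent `s`
  set s : ℝ := min (1 / L) (δ / (2 * L ^ 2)) with hs
  have hs0 : 0 < s := lt_min (by positivity) (by positivity)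
  have hsL : s * L ≤ 1 := by
    have : s ≤ 1 / L := min_le_left _ _
    calc s * L ≤ 1 / L * L := mul_le_mul_of_nonneg_right this hL0.le
      _ = 1 := by field_simp
  have hsL2 : s ^ 2 * L ^ 2 ≤ s * δ / 2 := by
    have : s ≤ δ / (2 * L ^ 2) := min_le_right _ _
    calc s ^ 2 * L ^ 2 = s * (s * L ^ 2) := by ring
      _ ≤ s * (δ / (2 * L ^ 2) * L ^ 2) := by
          apply mul_le_mul_of_nonneg_left _ hs0.le
          exact mul_le_mul_of_nonneg_right this (by positivity)
      _ = s * δ / 2 := by field_simp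
  set η := s * δ / 2 with hη
  have hη0 : 0 < η := by positivity
  -- the moment
  have hmom : ∫ x, Real.exp (s * Real.log (b x)) ∂π ≤ Real.exp (-(s * φ) + s ^ 2 * L ^ 2) := by
    have h1 : ∀ x, Real.exp (s * Real.log (b x)) ≤ 1 + s * Real.log (b x) + s ^ 2 * L ^ 2 := by
      intro x
      have hx : |s * Real.log (b x)| ≤ 1 := by
        rw [abs_mul, abs_of_pos hs0]
        exact (mul_le_mul_of_nonneg_left (hL x) hs0.le).trans hsL
      have h2 := (abs_le.1 (Real.abs_exp_sub_one_sub_id_le hx)).2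
      have h3 : (s * Real.log (b x)) ^ 2 ≤ s ^ 2 * L ^ 2 := by
        rw [mul_pow]
        apply mul_le_mul_of_nonneg_left _ (by positivity)
        rw [← sq_abs]
        exact pow_le_pow_left₀ (abs_nonneg _) (hL x) 2
      linarith
    have hi : Integrable (fun x => Real.exp (s * Real.log (b x))) π := by
      apply Integrable.of_bound (Real.measurable_exp.comp (hlogm.const_mul s)).aestronglyMeasurable
        (Real.exp 1)
      filter_upwards with x
      rw [Function.comp, Real.norm_eq_abs, abs_of_pos (Real.exp_pos _)]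
      apply Real.exp_le_exp.2
      have hx : |s * Real.log (b x)| ≤ 1 := by
        rw [abs_mul, abs_of_pos hs0]
        exact (mul_le_mul_of_nonneg_left (hL x) hs0.le).trans hsL
      exact (le_abs_self _).trans hx
    have h2 : ∫ x, Real.exp (s * Real.log (b x)) ∂π
        ≤ ∫ x, (1 + s * Real.log (b x) + s ^ 2 * L ^ 2) ∂π := by
      apply integral_mono hi
      · exact ((integrable_const _).add (hlogi.const_mul s)).add (integrable_const _)
      · exact h1
    have h3 : ∫ x, (1 + s * Real.log (b x) + s ^ 2 * L ^ 2) ∂π = 1 + (-(s * φ) + s ^ 2 * L ^ 2) := by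
      have hadd : (fun x => 1 + s * Real.log (b x) + s ^ 2 * L ^ 2)
          = fun x => (1 + s ^ 2 * L ^ 2) + s * Real.log (b x) := by funext x; ring
      rw [hadd, integral_add (integrable_const _) (hlogi.const_mul s), integral_const_mul]
      simp only [integral_const, probReal_univ, one_smul, hφ, integral_neg]
      ring
    rw [h3] at h2
    have h4 := Real.add_one_le_exp (-(s * φ) + s ^ 2 * L ^ 2)
    linarith
  have hmom0 : 0 ≤ ∫ x, Real.exp (s * Real.log (b x)) ∂π :=
    integral_nonneg fun x => (Real.exp_pos _).le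
  -- the key inequality for a family of boxes
  have key : ∀ (ℓ : ℕ) (S : Finset (Set (Fin ℓ → Ω))), (∀ B ∈ S, IsBox I ℓ B) →
      (Measure.pi fun _ : Fin ℓ => π).real (⋃ B ∈ S, B)
        ≤ S.card * Real.exp (-(ℓ * (φ - δ))) + Real.exp (-(ℓ * η)) := by
    intro ℓ S hS
    set P : Measure (Fin ℓ → Ω) := Measure.pi fun _ : Fin ℓ => π with hP
    set W : (Fin ℓ → Ω) → ℝ := fun x => ∏ i, (b (x i))⁻¹ with hW
    have hWm : Measurable W :=
      Finset.measurable_prod _ fun i _ => (hb.comp (measurable_pi_apply i)).inv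
    have hWpos : ∀ x, 0 < W x := fun x => Finset.prod_pos fun i _ => inv_pos.2 (hbpos _)
    set T : Set (Fin ℓ → Ω) := {x | Real.exp (ℓ * (φ - δ)) ≤ W x} with hT
    have hTm : MeasurableSet T := measurableSet_le measurable_const hWm
    -- the part in `T`
    have hBT : ∀ B ∈ S, P.real (B ∩ T) ≤ Real.exp (-(ℓ * (φ - δ))) := by
      intro B hB
      obtain ⟨J, hJI, rfl⟩ := hS B hB
      have hBm : MeasurableSet (univ.pi J) := MeasurableSet.univ_pi fun i => hI _ (hJI i)
      have hint : ∫ x, ∏ i, (J i).indicator (fun y => (b y)⁻¹) (x i) ∂P ≤ 1 := by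
        rw [hP, integral_fintype_prod_eq_prod (fun i => (J i).indicator fun y => (b y)⁻¹)]
        apply Finset.prod_le_one
        · intro i _
          exact integral_nonneg fun y => indicator_nonneg (fun z _ => (inv_pos.2 (hbpos z)).le) y
        · intro i _
          rw [integral_indicator (hI _ (hJI i))]
          exact hJ _ (hJI i)
      have hprod : ∀ x : Fin ℓ → Ω, ∏ i, (J i).indicator (fun y => (b y)⁻¹) (x i)
          = (univ.pi J).indicator W x := by
        intro x
        by_cases hx : x ∈ univ.pi J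
        · rw [indicator_of_mem hx]
          apply Finset.prod_congr rfl
          intro i _
          exact indicator_of_mem (hx i (mem_univ i)) _
        · rw [indicator_of_notMem hx]
          rw [mem_univ_pi] at hx
          push Not at hx
          obtain ⟨i, hi⟩ := hx
          exact Finset.prod_eq_zero (Finset.mem_univ i) (indicator_of_notMem hi _)
      simp only [hprod] at hint
      have hWb : ∀ x, ‖(univ.pi J).indicator W x‖ ≤ (c₁⁻¹) ^ ℓ := by
        intro x
        refine (norm_indicator_le_norm_self _ _).trans ?_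
        rw [Real.norm_eq_abs, abs_of_pos (hWpos x)]
        calc W x ≤ ∏ _i : Fin ℓ, c₁⁻¹ := by
              apply Finset.prod_le_prod
              · intro i _; exact (inv_pos.2 (hbpos _)).le
              · intro i _; exact inv_anti₀ hc₁ (hb1 _)
          _ = (c₁⁻¹) ^ ℓ := by simp
      have hWi : Integrable ((univ.pi J).indicator W) P :=
        Integrable.of_bound (hWm.indicator hBm).aestronglyMeasurable _
          (Eventually.of_forall hWb)
      have h1 : P.real (univ.pi J ∩ T) * Real.exp (ℓ * (φ - δ)) ≤ 1 := by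
        calc P.real (univ.pi J ∩ T) * Real.exp (ℓ * (φ - δ))
            = ∫ x, (univ.pi J ∩ T).indicator (fun _ => Real.exp (ℓ * (φ - δ))) x ∂P := by
              rw [integral_indicator (hBm.inter hTm), setIntegral_const]
              rfl
          _ ≤ ∫ x, (univ.pi J).indicator W x ∂P := by
              apply integral_mono
              · exact (integrable_const _).indicator (hBm.inter hTm)
              · exact hWi
              · intro x
                by_cases hx : x ∈ univ.pi J
                · by_cases hxT : x ∈ T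
                  · rw [indicator_of_mem (show x ∈ univ.pi J ∩ T from ⟨hx, hxT⟩),
                      indicator_of_mem hx]
                    exact hxT
                  · rw [indicator_of_notMem (show x ∉ univ.pi J ∩ T from fun h => hxT h.2),
                      indicator_of_mem hx]
                    exact (hWpos x).le
                · rw [indicator_of_notMem (show x ∉ univ.pi J ∩ T from fun h => hx h.1),
                    indicator_of_notMem hx]
          _ ≤ 1 := hint
      rw [Real.exp_neg, ← one_div, le_div_iff₀ (Real.exp_pos _)]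
      exact h1
    -- the complement of `T`
    have hTc : P.real Tᶜ ≤ Real.exp (-(ℓ * η)) := by
      have hEi : Integrable (fun x : Fin ℓ → Ω => ∏ i, Real.exp (s * Real.log (b (x i)))) P := by
        apply Integrable.of_bound (C := (Real.exp 1) ^ ℓ)
        · exact (Finset.measurable_prod _ fun i _ => Real.measurable_exp.comp
            ((hlogm.comp (measurable_pi_apply i)).const_mul s)).aestronglyMeasurable
        · filter_upwards with x
          rw [Real.norm_eq_abs, abs_of_pos (Finset.prod_pos fun i _ => Real.exp_pos _)]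
          calc ∏ i, Real.exp (s * Real.log (b (x i))) ≤ ∏ _i : Fin ℓ, Real.exp 1 := by
                apply Finset.prod_le_prod
                · intro i _; exact (Real.exp_pos _).le
                · intro i _
                  apply Real.exp_le_exp.2
                  have hx : |s * Real.log (b (x i))| ≤ 1 := by
                    rw [abs_mul, abs_of_pos hs0]
                    exact (mul_le_mul_of_nonneg_left (hL _) hs0.le).trans hsL
                  exact (le_abs_self _).trans hx
            _ = (Real.exp 1) ^ ℓ := by simp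
      have hWexp : ∀ x : Fin ℓ → Ω, ∏ i, Real.exp (s * Real.log (b (x i)))
          = Real.exp (-(s * Real.log (W x))) := by
        intro x
        rw [← Real.exp_sum]
        congr 1
        simp only [hW]
        rw [Real.log_prod (fun i _ => (inv_pos.2 (hbpos _)).ne'), Finset.mul_sum, ← Finset.sum_neg_distrib]
        apply Finset.sum_congr rfl
        intro i _
        rw [Real.log_inv]; ring
      have h1 : P.real Tᶜ * Real.exp (-(s * (ℓ * (φ - δ))))
          ≤ ∫ x : Fin ℓ → Ω, ∏ i, Real.exp (s * Real.log (b (x i))) ∂P := by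
        calc P.real Tᶜ * Real.exp (-(s * (ℓ * (φ - δ))))
            = ∫ x, Tᶜ.indicator (fun _ => Real.exp (-(s * (ℓ * (φ - δ))))) x ∂P := by
              rw [integral_indicator hTm.compl, setIntegral_const]
              rfl
          _ ≤ _ := by
              apply integral_mono ((integrable_const _).indicator hTm.compl) hEi
              intro x
              by_cases hx : x ∈ Tᶜ
              · rw [indicator_of_mem hx]
                change _ ≤ ∏ i, Real.exp (s * Real.log (b (x i)))
                rw [hWexp x]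
                apply Real.exp_le_exp.2
                have hx' : W x < Real.exp (ℓ * (φ - δ)) := not_le.1 hx
                have := Real.log_lt_log (hWpos x) hx'
                rw [Real.log_exp] at this
                have := mul_le_mul_of_nonneg_left this.le hs0.le
                linarith
              · rw [indicator_of_notMem hx]
                exact (Finset.prod_pos fun i _ => Real.exp_pos _).le
      have h2 : ∫ x : Fin ℓ → Ω, ∏ i, Real.exp (s * Real.log (b (x i))) ∂P
          ≤ Real.exp (ℓ * (-(s * φ) + s ^ 2 * L ^ 2)) := by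
        rw [hP, integral_fintype_prod_eq_pow (fun y => Real.exp (s * Real.log (b y)))]
        rw [Fintype.card_fin, Real.exp_nat_mul]
        exact pow_le_pow_left₀ hmom0 hmom ℓ
      have h3 := h1.trans h2
      have h4 : P.real Tᶜ = P.real Tᶜ * Real.exp (-(s * (ℓ * (φ - δ)))) * Real.exp (s * (ℓ * (φ - δ))) := by
        rw [mul_assoc, ← Real.exp_add]; simp
      rw [h4]
      refine (mul_le_mul_of_nonneg_right h3 (Real.exp_pos _).le).trans ?_
      rw [← Real.exp_add]
      apply Real.exp_le_exp.2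
      have : (ℓ : ℝ) * (s ^ 2 * L ^ 2) ≤ ℓ * (s * δ / 2) :=
        mul_le_mul_of_nonneg_left hsL2 (Nat.cast_nonneg ℓ)
      rw [hη]
      nlinarith
    have hsub : (⋃ B ∈ S, B) ⊆ (⋃ B ∈ S, (B ∩ T)) ∪ Tᶜ := by
      intro x hx
      by_cases hxT : x ∈ T
      · left
        simp only [mem_iUnion] at hx ⊢
        obtain ⟨B, hB, hxB⟩ := hx
        exact ⟨B, hB, hxB, hxT⟩
      · right; exact hxT
    calc P.real (⋃ B ∈ S, B) ≤ P.real ((⋃ B ∈ S, (B ∩ T)) ∪ Tᶜ) := measureReal_mono hsub
      _ ≤ P.real (⋃ B ∈ S, (B ∩ T)) + P.real Tᶜ := measureReal_union_le _ _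
      _ ≤ (∑ B ∈ S, P.real (B ∩ T)) + P.real Tᶜ := by
          gcongr
          exact measureReal_biUnion_finset_le S _
      _ ≤ (∑ _B ∈ S, Real.exp (-(ℓ * (φ - δ)))) + Real.exp (-(ℓ * η)) := by
          gcongr with B hB
          exact hBT B hB
      _ = _ := by rw [Finset.sum_const, nsmul_eq_mul]
  -- conclusion
  unfold Hlow
  apply le_liminf_of_le (by isBoundedDefault)
  have hl1 : ∀ᶠ ℓ : ℕ in atTop, Real.exp (-(ℓ * η)) ≤ (1 - lam) / 2 := by
    have : Tendsto (fun ℓ : ℕ => Real.exp (-((ℓ : ℝ) * η))) atTop (𝓝 0) := by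
      apply Real.tendsto_exp_neg_atTop_nhds_zero.comp
      exact tendsto_natCast_atTop_atTop.atTop_mul_const hη0
    exact this.eventually_le_const (by linarith)
  have hl2 : ∀ᶠ ℓ : ℕ in atTop, Real.exp (-(ℓ * δ)) ≤ (1 - lam) / 2 := by
    have : Tendsto (fun ℓ : ℕ => Real.exp (-((ℓ : ℝ) * δ))) atTop (𝓝 0) := by
      apply Real.tendsto_exp_neg_atTop_nhds_zero.comp
      exact tendsto_natCast_atTop_atTop.atTop_mul_const hδ
    exact this.eventually_le_const (by linarith)
  filter_upwards [hl1, hl2, eventually_gt_atTop 0] with ℓ h1 h2 h3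
  have hℓ : (0 : EReal) < (ℓ : EReal) := by exact_mod_cast h3
  rw [EReal.le_div_iff_mul_le hℓ (by exact EReal.natCast_ne_top ℓ)]
  have hN : ENNReal.ofReal (Real.exp ((φ - 2 * δ) * ℓ)) ≤ Ncov I π lam ℓ := by
    unfold Ncov
    apply le_iInf₂
    intro S hS
    have h4 := hS.2.trans (key ℓ S hS.1)
    have h5 : (1 - lam) / 2 ≤ S.card * Real.exp (-(ℓ * (φ - δ))) := by linarith
    have h6 : Real.exp ((φ - 2 * δ) * ℓ) ≤ S.card := by
      have h7 : Real.exp (-(ℓ * δ)) ≤ S.card * Real.exp (-(ℓ * (φ - δ))) := h2.trans h5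
      calc Real.exp ((φ - 2 * δ) * ℓ) = Real.exp (-(ℓ * δ)) * Real.exp (ℓ * (φ - δ)) := by
            rw [← Real.exp_add]; congr 1; ring
        _ ≤ (S.card * Real.exp (-(ℓ * (φ - δ)))) * Real.exp (ℓ * (φ - δ)) :=
            mul_le_mul_of_nonneg_right h7 (Real.exp_pos _).le
        _ = S.card := by rw [mul_assoc, ← Real.exp_add]; simp
    rw [← ENNReal.ofReal_natCast]
    exact ENNReal.ofReal_le_ofReal h6
  calc (((φ - 2 * δ : ℝ) : EReal) * (ℓ : EReal)) = (((φ - 2 * δ) * ℓ : ℝ) : EReal) := by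
        push_cast; rfl
    _ = (ENNReal.ofReal (Real.exp ((φ - 2 * δ) * ℓ))).log := by
        rw [ENNReal.log_ofReal_of_pos (Real.exp_pos _), Real.log_exp]
    _ ≤ (Ncov I π lam ℓ).log := ENNReal.log_monotone hN

/-! ### countable convex combinations -/

theorem cnt_meas {I : Set (Set Ω)} (hI : ∀ J ∈ I, MeasurableSet J) {c : Ω → ℝ≥0∞}
    (h : IsCnt I c) : Measurable c := by
  obtain ⟨q, J, hJ, _, rfl⟩ := h
  exact Measurable.tsum fun k =>
    (measurable_one.indicator (hI _ (hJ k))).const_mul _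

omit [MeasurableSpace Ω] in
theorem cnt_le_one {I : Set (Set Ω)} {c : Ω → ℝ≥0∞} (h : IsCnt I c) (x : Ω) : c x ≤ 1 := by
  obtain ⟨q, J, hJ, hq, rfl⟩ := h
  rw [← hq]
  apply ENNReal.tsum_le_tsum
  intro k
  calc q k * (J k).indicator 1 x ≤ q k * 1 := by
        gcongr
        exact indicator_le_self' (by simp) x
    _ = q k := mul_one _

omit [MeasurableSpace Ω] in
theorem cnt_mix {I : Set (Set Ω)} {p : ℕ → ℝ≥0∞} (hp : ∑' k, p k = 1) {c : ℕ → Ω → ℝ≥0∞}
    (hc : ∀ k, IsCnt I (c k)) : IsCnt I (fun x => ∑' k, p k * c k x) := by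
  choose q J hJ hq hcq using hc
  refine ⟨fun n => p (Nat.unpair n).1 * q (Nat.unpair n).1 (Nat.unpair n).2,
    fun n => J (Nat.unpair n).1 (Nat.unpair n).2, fun n => hJ _ _, ?_, ?_⟩
  · have h1 := Nat.pairEquiv.symm.tsum_eq (fun z : ℕ × ℕ => p z.1 * q z.1 z.2)
    have h2 : ∑' z : ℕ × ℕ, p z.1 * q z.1 z.2 = 1 := by
      rw [ENNReal.tsum_prod (f := fun a b => p a * q a b)]
      simp only [ENNReal.tsum_mul_left, hq, mul_one, hp]
    rw [h2] at h1
    exact h1
  · funext x
    have h1 := Nat.pairEquiv.symm.tsum_eq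
      (fun z : ℕ × ℕ => p z.1 * q z.1 z.2 * (J z.1 z.2).indicator (1 : Ω → ℝ≥0∞) x)
    have h2 : ∑' z : ℕ × ℕ, p z.1 * q z.1 z.2 * (J z.1 z.2).indicator (1 : Ω → ℝ≥0∞) x
        = ∑' k, p k * c k x := by
      rw [ENNReal.tsum_prod (f := fun a b => p a * q a b * (J a b).indicator (1 : Ω → ℝ≥0∞) x)]
      congr 1; funext k
      rw [hcq k, ← ENNReal.tsum_mul_left]
      congr 1; funext l; ring
    rw [← h2, ← h1]
    rfl

omit [MeasurableSpace Ω] in
theorem cnt_mix2 {I : Set (Set Ω)} {t : ℝ≥0∞} (ht : t ≤ 1) {c d : Ω → ℝ≥0∞} (hc : IsCnt I c)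
    (hd : IsCnt I d) : IsCnt I (fun x => (1 - t) * c x + t * d x) := by
  have h := cnt_mix (I := I) (p := fun k => if k = 0 then 1 - t else if k = 1 then t else 0)
    (c := fun k => if k = 0 then c else d) ?_ ?_
  · convert h using 2 with x
    rw [tsum_eq_sum (s := Finset.range 2)]
    · simp [Finset.sum_range_succ]
    · intro k hk
      simp only [Finset.mem_range, not_lt] at hk
      have h0 : k ≠ 0 := by omega
      have h1 : k ≠ 1 := by omega
      simp [h0, h1]
  · rw [tsum_eq_sum (s := Finset.range 2)]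
    · simp [Finset.sum_range_succ, tsub_add_cancel_of_le ht]
    · intro k hk
      simp only [Finset.mem_range, not_lt] at hk
      have h0 : k ≠ 0 := by omega
      have h1 : k ≠ 1 := by omega
      simp [h0, h1]
  · intro k
    by_cases h0 : k = 0
    · simp [h0, hc]
    · simp [h0, hd]

omit [MeasurableSpace Ω] in
theorem cnt_single {I : Set (Set Ω)} {J : Set Ω} (hJ : J ∈ I) : IsCnt I (J.indicator 1) := by
  refine ⟨fun k => if k = 0 then 1 else 0, fun _ => J, fun _ => hJ, ?_, ?_⟩
  · rw [tsum_ite_eq]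
  · funext x
    rw [tsum_eq_single 0]
    · simp
    · intro k hk; simp [hk]

/-- the regularised function -/
noncomputable def Bf (ε : ℝ) (c : Ω → ℝ≥0∞) (x : Ω) : ℝ := (1 - ε) * (c x).toReal + ε

/-- the regularised entropy functional -/
noncomputable def Fe (π : Measure Ω) (ε : ℝ) (c : Ω → ℝ≥0∞) : ℝ := ∫ x, -Real.log (Bf ε c x) ∂π

/-- its infimum -/
noncomputable def Ve (I : Set (Set Ω)) (π : Measure Ω) (ε : ℝ) : ℝ :=
  sInf (Fe π ε '' {c | IsCnt I c})

section reg

variable {I : Set (Set Ω)} {π : Measure Ω} [IsProbabilityMeasure π]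

omit [MeasurableSpace Ω] in
theorem cr_nonneg (c : Ω → ℝ≥0∞) (x : Ω) : 0 ≤ (c x).toReal := ENNReal.toReal_nonneg

omit [MeasurableSpace Ω] in
theorem cr_le {c : Ω → ℝ≥0∞} (h : IsCnt I c) (x : Ω) : (c x).toReal ≤ 1 := by
  have := ENNReal.toReal_mono ENNReal.one_ne_top (cnt_le_one h x)
  simpa using this

omit [MeasurableSpace Ω] in
theorem Bf_ge {ε : ℝ} (hε : ε < 1) (c : Ω → ℝ≥0∞) (x : Ω) : ε ≤ Bf ε c x := by
  unfold Bf
  have := mul_nonneg (by linarith : 0 ≤ 1 - ε) (cr_nonneg c x)
  linarith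

omit [MeasurableSpace Ω] in
theorem Bf_le {ε : ℝ} (hε : ε < 1) {c : Ω → ℝ≥0∞} (h : IsCnt I c) (x : Ω) :
    Bf ε c x ≤ 1 := by
  unfold Bf
  have := mul_le_mul_of_nonneg_left (cr_le h x) (by linarith : 0 ≤ 1 - ε)
  linarith

theorem Bf_meas (hI : ∀ J ∈ I, MeasurableSet J) (ε : ℝ) {c : Ω → ℝ≥0∞} (h : IsCnt I c) :
    Measurable (Bf ε c) :=
  ((cnt_meas hI h).ennreal_toReal.const_mul _).add_const _

omit [MeasurableSpace Ω] in
theorem logB_bound {ε : ℝ} (hε0 : 0 < ε) (hε : ε < 1) {c : Ω → ℝ≥0∞} (h : IsCnt I c) (x : Ω) :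
    0 ≤ -Real.log (Bf ε c x) ∧ -Real.log (Bf ε c x) ≤ -Real.log ε := by
  have h1 := Bf_ge hε c x
  have h2 := Bf_le hε h x
  constructor
  · have := Real.log_nonpos (hε0.le.trans h1) h2
    linarith
  · have := Real.log_le_log hε0 h1
    linarith

theorem logB_int (hI : ∀ J ∈ I, MeasurableSet J) {ε : ℝ} (hε0 : 0 < ε) (hε : ε < 1)
    {c : Ω → ℝ≥0∞} (h : IsCnt I c) : Integrable (fun x => -Real.log (Bf ε c x)) π := by
  apply Integrable.of_bound (Real.measurable_log.comp (Bf_meas hI ε h)).neg.aestronglyMeasurable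
    (-Real.log ε)
  filter_upwards with x
  obtain ⟨h1, h2⟩ := logB_bound hε0 hε h x
  rw [Real.norm_eq_abs]
  change |(-Real.log (Bf ε c x))| ≤ _
  rw [abs_of_nonneg h1]
  exact h2

omit [IsProbabilityMeasure π] in
theorem Fe_nonneg {ε : ℝ} (hε0 : 0 < ε) (hε : ε < 1) {c : Ω → ℝ≥0∞} (h : IsCnt I c) :
    0 ≤ Fe π ε c := integral_nonneg fun x => (logB_bound hε0 hε h x).1

omit [IsProbabilityMeasure π] in
theorem Ve_bdd {ε : ℝ} (hε0 : 0 < ε) (hε : ε < 1) : BddBelow (Fe π ε '' {c | IsCnt I c}) :=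
  ⟨0, by rintro _ ⟨c, hc, rfl⟩; exact Fe_nonneg hε0 hε hc⟩

omit [IsProbabilityMeasure π] in
theorem Ve_le {ε : ℝ} (hε0 : 0 < ε) (hε : ε < 1) {c : Ω → ℝ≥0∞} (h : IsCnt I c) :
    Ve I π ε ≤ Fe π ε c := csInf_le (Ve_bdd hε0 hε) ⟨c, h, rfl⟩

omit [IsProbabilityMeasure π] in
theorem Ve_approx (hne : I.Nonempty) (ε : ℝ) {η : ℝ} (hη : 0 < η) :
    ∃ c, IsCnt I c ∧ Fe π ε c < Ve I π ε + η := by
  obtain ⟨J, hJ⟩ := hne
  have hn : (Fe π ε '' {c | IsCnt I c}).Nonempty := ⟨_, ⟨_, cnt_single hJ, rfl⟩⟩
  obtain ⟨_, ⟨c, hc, rfl⟩, h⟩ := Real.lt_sInf_add_pos hn hη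
  exact ⟨c, hc, h⟩

theorem Fe_anti (hI : ∀ J ∈ I, MeasurableSet J) {ε ε' : ℝ} (h0 : 0 < ε') (h1 : ε' ≤ ε)
    (h2 : ε < 1) {c : Ω → ℝ≥0∞} (h : IsCnt I c) : Fe π ε c ≤ Fe π ε' c := by
  apply integral_mono (logB_int hI (h0.trans_le h1) h2 h) (logB_int hI h0 (h1.trans_lt h2) h)
  intro x
  have h3 : Bf ε' c x ≤ Bf ε c x := by
    unfold Bf
    have := cr_le h x
    nlinarith
  have h4 : 0 < Bf ε' c x := h0.trans_le (Bf_ge (h1.trans_lt h2) c x)
  have := Real.log_le_log h4 h3
  simp only
  linarith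

theorem Ve_anti (hI : ∀ J ∈ I, MeasurableSet J) (hne : I.Nonempty) {ε ε' : ℝ} (h0 : 0 < ε')
    (h1 : ε' ≤ ε) (h2 : ε < 1) : Ve I π ε ≤ Ve I π ε' := by
  apply le_of_forall_pos_le_add
  intro η hη
  obtain ⟨c, hc, hlt⟩ := Ve_approx (π := π) hne ε' hη
  have := Fe_anti (π := π) hI h0 h1 h2 hc
  have := Ve_le (I := I) (π := π) (h0.trans_le h1) h2 hc
  linarith

theorem neg_log_le {u : ℝ} (hu : -(1 / 2) ≤ u) : -Real.log (1 + u) ≤ -u + 2 * u ^ 2 := by
  have h1 : 0 < 1 + u := by linarith
  have h2 := Real.one_sub_inv_le_log_of_pos h1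
  have h3 : 1 - (1 + u)⁻¹ = u / (1 + u) := by field_simp; ring
  rw [h3] at h2
  have h4 : u - 2 * u ^ 2 ≤ u / (1 + u) := by
    rw [le_div_iff₀ h1]
    nlinarith [sq_nonneg u]
  linarith

/-- approximate minimisers are dual certificates -/
theorem dual_cert (hI : ∀ J ∈ I, MeasurableSet J) (hne : I.Nonempty) {ε : ℝ} (hε0 : 0 < ε)
    (hε : ε < 1) {κ : ℝ} (hκ : 0 < κ) : ∃ (b : Ω → ℝ) (c₁ c₂ : ℝ), Measurable b ∧ 0 < c₁ ∧
      (∀ x, c₁ ≤ b x) ∧ (∀ x, b x ≤ c₂) ∧ (∀ J ∈ I, ∫ x in J, (b x)⁻¹ ∂π ≤ 1) ∧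
      Ve I π ε + Real.log (1 - ε) - κ ≤ ∫ x, -Real.log (b x) ∂π := by
  set η : ℝ := min (ε / 2) (κ / (1 + 2 / ε ^ 2)) with hη
  have hη0 : 0 < η := lt_min (by linarith) (by positivity)
  have hηε : η ≤ ε / 2 := min_le_left _ _
  set κ' : ℝ := η * (1 + 2 / ε ^ 2) with hκ'
  have hκ'0 : 0 < κ' := by positivity
  have hκκ : κ' ≤ κ := by
    have : η ≤ κ / (1 + 2 / ε ^ 2) := min_le_right _ _
    calc κ' ≤ κ / (1 + 2 / ε ^ 2) * (1 + 2 / ε ^ 2) :=
          mul_le_mul_of_nonneg_right this (by positivity)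
      _ = κ := by field_simp
  obtain ⟨c, hc, hclt⟩ := Ve_approx (π := π) hne ε (by positivity : 0 < η ^ 2)
  set b := Bf ε c with hb
  have hbm : Measurable b := Bf_meas hI ε hc
  have hb1 : ∀ x, ε ≤ b x := Bf_ge hε c
  have hb2 : ∀ x, b x ≤ 1 := Bf_le hε hc
  have hb0 : ∀ x, 0 < b x := fun x => hε0.trans_le (hb1 x)
  have hinvi : Integrable (fun x => (b x)⁻¹) π := by
    apply Integrable.of_bound hbm.inv.aestronglyMeasurable ε⁻¹
    filter_upwards with x
    rw [Pi.inv_apply, Real.norm_eq_abs, abs_of_pos (inv_pos.2 (hb0 x))]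
    exact inv_anti₀ hε0 (hb1 x)
  -- the main inequality
  have hmain : ∀ J ∈ I, (1 - ε) * ∫ x in J, (b x)⁻¹ ∂π ≤ 1 + κ' := by
    intro J hJ
    have hJm := hI J hJ
    have hηE : ENNReal.ofReal η ≤ 1 := by
      rw [← ENNReal.ofReal_one]; exact ENNReal.ofReal_le_ofReal (by linarith)
    set d : Ω → ℝ≥0∞ := fun x => (1 - ENNReal.ofReal η) * c x
      + ENNReal.ofReal η * J.indicator 1 x with hd
    have hdc : IsCnt I d := cnt_mix2 hηE hc (cnt_single hJ)
    set j : Ω → ℝ := J.indicator 1 with hj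
    have hj01 : ∀ x, 0 ≤ j x ∧ j x ≤ 1 := fun x =>
      ⟨indicator_nonneg (fun _ _ => zero_le_one) x, indicator_le_self' (by simp) x⟩
    have hdr : ∀ x, (d x).toReal = (1 - η) * (c x).toReal + η * j x := by
      intro x
      have hcx : c x ≠ ⊤ := ne_top_of_le_ne_top ENNReal.one_ne_top (cnt_le_one hc x)
      simp only [hd, hj]
      rw [ENNReal.toReal_add, ENNReal.toReal_mul, ENNReal.toReal_mul,
        ENNReal.toReal_sub_of_le hηE ENNReal.one_ne_top, ENNReal.toReal_ofReal hη0.le]
      · congr 2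
        by_cases hx : x ∈ J <;> simp [hx]
      · exact ENNReal.mul_ne_top (by simp) hcx
      · exact ENNReal.mul_ne_top ENNReal.ofReal_ne_top
          (ne_top_of_le_ne_top ENNReal.one_ne_top (indicator_le_self' (by simp) x))
    have hbd : ∀ x, Bf ε d x = b x * (1 + η * (1 - ε) * (j x - (c x).toReal) * (b x)⁻¹) := by
      intro x
      have := (hb0 x).ne'
      rw [mul_add, mul_one]
      have e1 : b x * (η * (1 - ε) * (j x - (c x).toReal) * (b x)⁻¹)
          = η * (1 - ε) * (j x - (c x).toReal) := by field_simp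
      rw [e1]
      simp only [hb, Bf, hdr]
      ring
    set u : Ω → ℝ := fun x => η * (1 - ε) * (j x - (c x).toReal) * (b x)⁻¹ with hu
    have hub : ∀ x, |u x| ≤ η / ε := by
      intro x
      simp only [hu]
      rw [abs_mul, abs_mul, abs_mul, abs_of_pos hη0, abs_of_pos (by linarith : 0 < 1 - ε),
        abs_of_pos (inv_pos.2 (hb0 x))]
      have e1 : |j x - (c x).toReal| ≤ 1 := by
        have a := hj01 x
        have b := cr_nonneg c x
        have c := cr_le hc x
        rw [abs_le]; constructor <;> linarith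
      have e2 : (b x)⁻¹ ≤ ε⁻¹ := inv_anti₀ hε0 (hb1 x)
      have e3 : 0 ≤ (b x)⁻¹ := (inv_pos.2 (hb0 x)).le
      have e4 : 1 - ε ≤ 1 := by linarith
      have e5 : η * (1 - ε) * |j x - (c x).toReal| ≤ η * 1 * 1 := by
        apply mul_le_mul (mul_le_mul_of_nonneg_left e4 hη0.le) e1 (abs_nonneg _)
        linarith
      calc η * (1 - ε) * |j x - (c x).toReal| * (b x)⁻¹ ≤ η * 1 * 1 * ε⁻¹ :=
            mul_le_mul e5 e2 e3 (by linarith)
        _ = η / ε := by ring
    have hηε' : η / ε ≤ 1 / 2 := by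
      rw [div_le_iff₀ hε0]; linarith
    have hum : Measurable u := by
      have h1 : Measurable j := measurable_one.indicator hJm
      exact (((h1.sub (cnt_meas hI hc).ennreal_toReal).const_mul _).mul hbm.inv)
    have hui : Integrable u π := Integrable.of_bound hum.aestronglyMeasurable (η / ε)
      (Eventually.of_forall hub)
    have hpt : ∀ x, -Real.log (Bf ε d x) ≤ -Real.log (b x) - u x + 2 * (η / ε) ^ 2 := by
      intro x
      have h1 := abs_le.1 (hub x)
      have h2 : -(1/2) ≤ u x := by linarith [h1.1]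
      have h3 : 0 < 1 + u x := by linarith
      have h4 : Real.log (Bf ε d x) = Real.log (b x) + Real.log (1 + u x) := by
        rw [hbd x, Real.log_mul (hb0 x).ne' (by exact h3.ne')]
      have h5 := neg_log_le h2
      have h6 : u x ^ 2 ≤ (η / ε) ^ 2 := by
        rw [← sq_abs]; exact pow_le_pow_left₀ (abs_nonneg _) (hub x) 2
      rw [h4]; linarith
    have hI1 : Fe π ε d ≤ Fe π ε c - (∫ x, u x ∂π) + 2 * (η / ε) ^ 2 := by
      have hbi := logB_int (π := π) hI hε0 hε hc
      calc Fe π ε d ≤ ∫ x, (-Real.log (b x) - u x + 2 * (η / ε) ^ 2) ∂π := by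
            apply integral_mono (logB_int hI hε0 hε hdc)
            · exact (hbi.sub hui).add (integrable_const _)
            · exact hpt
        _ = _ := by
            have e1 := integral_add (μ := π) (hbi.sub hui) (integrable_const (2 * (η / ε) ^ 2))
            have e2 := integral_sub (μ := π) hbi hui
            simp only [Pi.sub_apply, integral_const, probReal_univ, one_smul] at e1
            rw [e2] at e1
            exact e1
    have hV := Ve_le (I := I) (π := π) hε0 hε hdc
    -- the integral of `u`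
    have hai : Integrable (fun x => (c x).toReal * (b x)⁻¹) π := by
      apply Integrable.of_bound
        ((cnt_meas hI hc).ennreal_toReal.mul hbm.inv).aestronglyMeasurable ε⁻¹
      filter_upwards with x
      rw [Pi.mul_apply, Pi.inv_apply, Real.norm_eq_abs,
        abs_of_nonneg (mul_nonneg (cr_nonneg c x) (inv_pos.2 (hb0 x)).le)]
      calc (c x).toReal * (b x)⁻¹ ≤ 1 * ε⁻¹ :=
            mul_le_mul (cr_le hc x) (inv_anti₀ hε0 (hb1 x)) (inv_pos.2 (hb0 x)).le zero_le_one
        _ = ε⁻¹ := one_mul _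
    have hint : ∫ x, u x ∂π = η * ((1 - ε) * (∫ x in J, (b x)⁻¹ ∂π)
        - (1 - ε) * ∫ x, (c x).toReal * (b x)⁻¹ ∂π) := by
      have e1 : u = fun x => (η * (1 - ε)) * (J.indicator (fun y => (b y)⁻¹) x
          - (c x).toReal * (b x)⁻¹) := by
        funext x
        simp only [hu, hj]
        by_cases hx : x ∈ J <;> simp [hx] <;> ring
      rw [e1, integral_const_mul, integral_sub (hinvi.indicator hJm) hai,
        integral_indicator hJm]
      ring
    have h7 : (1 - ε) * ∫ x, (c x).toReal * (b x)⁻¹ ∂π ≤ 1 := by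
      rw [← integral_const_mul]
      calc ∫ x, (1 - ε) * ((c x).toReal * (b x)⁻¹) ∂π ≤ ∫ _x, (1:ℝ) ∂π := by
            apply integral_mono (hai.const_mul _) (integrable_const _)
            intro x
            simp only
            rw [← mul_assoc, ← div_eq_mul_inv, div_le_one (hb0 x)]
            simp only [hb, Bf]
            linarith
        _ = 1 := by simp
    have h8 : η * ((1 - ε) * (∫ x in J, (b x)⁻¹ ∂π) - 1) ≤ η ^ 2 + 2 * (η / ε) ^ 2 := by
      have h9 : η * ((1 - ε) * (∫ x in J, (b x)⁻¹ ∂π) - 1) ≤ ∫ x, u x ∂π := by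
        rw [hint]
        apply mul_le_mul_of_nonneg_left _ hη0.le
        linarith
      linarith
    have h10 : η ^ 2 + 2 * (η / ε) ^ 2 = η * κ' := by
      rw [hκ']; field_simp
    rw [h10] at h8
    have := le_of_mul_le_mul_left h8 hη0
    linarith
  -- the certificate
  have hpos : 0 < (1 + κ') / (1 - ε) := div_pos (by linarith) (by linarith)
  refine ⟨fun x => b x * ((1 + κ') / (1 - ε)), ε * ((1 + κ') / (1 - ε)), 1 * ((1 + κ') / (1 - ε)),
    hbm.mul_const _, mul_pos hε0 hpos, fun x => mul_le_mul_of_nonneg_right (hb1 x) hpos.le,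
    fun x => mul_le_mul_of_nonneg_right (hb2 x) hpos.le, ?_, ?_⟩
  · intro J hJ
    have h1 := hmain J hJ
    have h2 : ∀ x, (b x * ((1 + κ') / (1 - ε)))⁻¹ = ((1 - ε) / (1 + κ')) * (b x)⁻¹ := by
      intro x; rw [mul_inv, inv_div]; ring
    simp only [h2]
    rw [integral_const_mul, div_mul_eq_mul_div, div_le_one (by linarith)]
    exact h1
  · have h1 : ∀ x, -Real.log (b x * ((1 + κ') / (1 - ε)))
        = -Real.log (b x) + (Real.log (1 - ε) - Real.log (1 + κ')) := by
      intro x
      rw [Real.log_mul (hb0 x).ne' hpos.ne', Real.log_div (by linarith) (by linarith)]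
      ring
    simp only [h1]
    rw [integral_add (logB_int hI hε0 hε hc) (integrable_const _)]
    have h2 := Ve_le (I := I) (π := π) hε0 hε hc
    have h3 : Real.log (1 + κ') ≤ κ' := by
      have := Real.log_le_sub_one_of_pos (by linarith : 0 < 1 + κ')
      linarith
    have h4 : Fe π ε c = ∫ x, -Real.log (b x) ∂π := rfl
    simp only [integral_const, probReal_univ, one_smul]
    linarith

end reg

/-! ### Step C: from the regularised infima to countable combinations -/

theorem nlog_mono {s t : ℝ} (hst : s ≤ t) : nlog t ≤ nlog s := by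
  unfold nlog
  by_cases hs : s ≤ 0
  · rw [if_pos hs]; exact le_top
  · push Not at hs
    rw [if_neg (not_le.2 hs), if_neg (not_le.2 (hs.trans_le hst))]
    apply ENNReal.ofReal_le_ofReal
    have := Real.log_le_log hs hst
    linarith

theorem nlog_of_pos {t : ℝ} (ht : 0 < t) : nlog t = ENNReal.ofReal (-Real.log t) := by
  unfold nlog; rw [if_neg (not_le.2 ht)]

theorem nlog_meas : Measurable nlog :=
  Measurable.ite measurableSet_Iic measurable_const
    (Real.measurable_log.neg.ennreal_ofReal)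

/-- multiplying the argument by a factor -/
theorem nlog_mul {s t : ℝ} (hs : 0 < s) :
    nlog (s * t) ≤ ENNReal.ofReal (-Real.log s) + nlog t := by
  by_cases ht : t ≤ 0
  · have : nlog t = ⊤ := by unfold nlog; rw [if_pos ht]
    rw [this, add_top]; exact le_top
  · push Not at ht
    rw [nlog_of_pos ht, nlog_of_pos (mul_pos hs ht), Real.log_mul hs.ne' ht.ne']
    refine le_trans (le_of_eq ?_) ENNReal.ofReal_add_le
    congr 1; ring

theorem sq_gap {b b' : ℝ} (hb : 0 < b) (hb1 : b ≤ 1) (hb' : 0 < b') (hb'1 : b' ≤ 1) :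
    (b - b') ^ 2 / 8 ≤ (-Real.log b - Real.log b') / 2 + Real.log ((b + b') / 2) := by
  set u := (b + b') / 2 with hu
  have hu0 : 0 < u := by positivity
  have hu1 : u ≤ 1 := by simp only [hu]; linarith
  have h1 : b * b' = u ^ 2 * (1 - ((b - b') / 2 / u) ^ 2) := by
    field_simp
    simp only [hu]
    ring
  have h2 : 0 < 1 - ((b - b') / 2 / u) ^ 2 := by
    have : 0 < b * b' := mul_pos hb hb'
    rw [h1] at this
    exact (mul_pos_iff_of_pos_left (by positivity)).1 this
  have h3 : Real.log b + Real.log b' = 2 * Real.log u + Real.log (1 - ((b - b') / 2 / u) ^ 2) := by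
    rw [← Real.log_mul hb.ne' hb'.ne', h1, Real.log_mul (by positivity) h2.ne', Real.log_pow]
    push_cast; ring
  have h4 := Real.log_le_sub_one_of_pos h2
  have h5 : (b - b') ^ 2 / 4 ≤ ((b - b') / 2 / u) ^ 2 := by
    rw [div_pow, le_div_iff₀ (by positivity)]
    have : u ^ 2 ≤ 1 := by nlinarith
    nlinarith [sq_nonneg (b - b')]
  linarith

section stepC

variable {I : Set (Set Ω)} {π : Measure Ω} [IsProbabilityMeasure π]

theorem Ve_le_R (hI : ∀ J ∈ I, MeasurableSet J) (hne : I.Nonempty) {R : ℝ}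
    (hR : ∀ ε, 0 < ε → ε < 1 → Ve I π ε + Real.log (1 - ε) ≤ R) {ε : ℝ} (h0 : 0 < ε) (h1 : ε < 1) :
    Ve I π ε ≤ R := by
  have h2 : ∀ᶠ ε' in 𝓝[>] (0:ℝ), Ve I π ε ≤ R - Real.log (1 - ε') := by
    have : Ioo (0:ℝ) ε ∈ 𝓝[>] (0:ℝ) := Ioo_mem_nhdsGT h0
    filter_upwards [this] with ε' hε'
    have h3 := Ve_anti (π := π) hI hne hε'.1 hε'.2.le h1
    have h4 := hR ε' hε'.1 (hε'.2.trans h1)
    linarith
  have h3 : Tendsto (fun ε' : ℝ => R - Real.log (1 - ε')) (𝓝[>] (0:ℝ)) (𝓝 (R - Real.log (1 - 0))) := by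
    have : ContinuousAt (fun ε' : ℝ => R - Real.log (1 - ε')) 0 := by
      apply ContinuousAt.sub continuousAt_const
      apply ContinuousAt.log (by fun_prop)
      norm_num
    exact this.tendsto.mono_left nhdsWithin_le_nhds
  have := ge_of_tendsto h3 h2
  simpa using this

/-- the `L²` distance of near minimisers -/
theorem near_min (hI : ∀ J ∈ I, MeasurableSet J) {ε η ε' : ℝ} (h0 : 0 < ε') (h1 : ε' ≤ ε)
    (h2 : ε ≤ 1 / 2) {c d : Ω → ℝ≥0∞} (hc : IsCnt I c) (hd : IsCnt I d)
    (hcη : Fe π ε c ≤ Ve I π ε + η) (hdη : Fe π ε' d ≤ Ve I π ε + η) :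
    ∫ x, ((c x).toReal - (d x).toReal) ^ 2 ∂π ≤ 32 * η := by
  have hε0 : 0 < ε := h0.trans_le h1
  have hε1 : ε < 1 := by linarith
  -- the midpoint
  set e : Ω → ℝ≥0∞ := fun x => (1 - ENNReal.ofReal (1/2)) * c x + ENNReal.ofReal (1/2) * d x with he
  have hhalf : ENNReal.ofReal (1/2) ≤ 1 := by
    rw [← ENNReal.ofReal_one]; exact ENNReal.ofReal_le_ofReal (by norm_num)
  have hec : IsCnt I e := cnt_mix2 hhalf hc hd
  have her : ∀ x, (e x).toReal = ((c x).toReal + (d x).toReal) / 2 := by
    intro x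
    have hcx : c x ≠ ⊤ := ne_top_of_le_ne_top ENNReal.one_ne_top (cnt_le_one hc x)
    have hdx : d x ≠ ⊤ := ne_top_of_le_ne_top ENNReal.one_ne_top (cnt_le_one hd x)
    simp only [he]
    rw [ENNReal.toReal_add, ENNReal.toReal_mul, ENNReal.toReal_mul,
      ENNReal.toReal_sub_of_le hhalf ENNReal.one_ne_top, ENNReal.toReal_ofReal (by norm_num)]
    · simp; ring
    · exact ENNReal.mul_ne_top (by simp) hcx
    · exact ENNReal.mul_ne_top ENNReal.ofReal_ne_top hdx
  have hBe : ∀ x, Bf ε e x = (Bf ε c x + Bf ε d x) / 2 := by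
    intro x; unfold Bf; rw [her]; ring
  have hV := Ve_le (I := I) (π := π) hε0 hε1 hec
  have hd' := Fe_anti (π := π) hI h0 h1 hε1 hd
  have ic := logB_int (π := π) hI hε0 hε1 hc
  have id' := logB_int (π := π) hI hε0 hε1 hd
  have ie := logB_int (π := π) hI hε0 hε1 hec
  have hsqi : Integrable (fun x => ((c x).toReal - (d x).toReal) ^ 2) π := by
    apply Integrable.of_bound
      (((cnt_meas hI hc).ennreal_toReal.sub (cnt_meas hI hd).ennreal_toReal).pow_const 2).aestronglyMeasurable 1
    filter_upwards with x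
    rw [Real.norm_eq_abs, abs_of_nonneg (sq_nonneg _)]
    have a1 := cr_nonneg c x
    have a2 := cr_le hc x
    have a3 := cr_nonneg d x
    have a4 := cr_le hd x
    change ((c x).toReal - (d x).toReal) ^ 2 ≤ 1
    nlinarith
  have hpt : ∀ x, ((c x).toReal - (d x).toReal) ^ 2 / 32
      ≤ (-Real.log (Bf ε c x)) / 2 + (-Real.log (Bf ε d x)) / 2 - (-Real.log (Bf ε e x)) := by
    intro x
    have b1 := Bf_ge hε1 c x
    have b2 := Bf_ge hε1 d x
    have g := sq_gap (hε0.trans_le b1) (Bf_le hε1 hc x) (hε0.trans_le b2) (Bf_le hε1 hd x)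
    rw [← hBe] at g
    have h3 : (Bf ε c x - Bf ε d x) ^ 2 = (1 - ε) ^ 2 * ((c x).toReal - (d x).toReal) ^ 2 := by
      unfold Bf; ring
    rw [h3] at g
    have h4 : (1:ℝ) / 4 ≤ (1 - ε) ^ 2 := by nlinarith
    have h5 := mul_le_mul_of_nonneg_right h4 (sq_nonneg ((c x).toReal - (d x).toReal))
    linarith
  have hint : ∫ x, ((c x).toReal - (d x).toReal) ^ 2 / 32 ∂π
      ≤ Fe π ε c / 2 + Fe π ε d / 2 - Fe π ε e := by
    calc ∫ x, ((c x).toReal - (d x).toReal) ^ 2 / 32 ∂π
        ≤ ∫ x, ((-Real.log (Bf ε c x)) / 2 + (-Real.log (Bf ε d x)) / 2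
          - (-Real.log (Bf ε e x))) ∂π := by
          apply integral_mono (hsqi.div_const _)
          · exact ((ic.div_const _).add (id'.div_const _)).sub ie
          · exact hpt
      _ = _ := by
          have e1 := integral_sub (μ := π) ((ic.div_const 2).add (id'.div_const 2)) ie
          have e2 := integral_add (μ := π) (ic.div_const 2) (id'.div_const 2)
          simp only [Pi.add_apply] at e1
          rw [e2, integral_div, integral_div] at e1
          exact e1
  rw [integral_div] at hint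
  linarith

/-- an almost everywhere limit of near minimisers -/
theorem limit_exists (hI : ∀ J ∈ I, MeasurableSet J) (hne : I.Nonempty) {R : ℝ}
    (hR : ∀ ε, 0 < ε → ε < 1 → Ve I π ε ≤ R) :
    ∃ (c : ℕ → Ω → ℝ≥0∞) (g : Ω → ℝ), (∀ i, IsCnt I (c i)) ∧ Measurable g ∧
      (∀ᵐ x ∂π, Tendsto (fun i => (c i x).toReal) atTop (𝓝 (g x))) ∧
      ∫⁻ x, nlog (g x) ∂π ≤ ENNReal.ofReal (R + 1) ∧ ∀ᵐ x ∂π, g x ≤ 1 := by
  set ε : ℕ → ℝ := fun k => 1 / ((k : ℝ) + 2) with hε
  have hε0 : ∀ k, 0 < ε k := fun k => by simp only [hε]; positivity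
  have hεh : ∀ k, ε k ≤ 1 / 2 := fun k => by
    simp only [hε]
    apply one_div_le_one_div_of_le (by norm_num)
    have : (0:ℝ) ≤ k := Nat.cast_nonneg k
    linarith
  have hε1 : ∀ k, ε k < 1 := fun k => by have := hεh k; linarith
  have hεanti : ∀ j k, j ≤ k → ε k ≤ ε j := by
    intro j k hjk
    simp only [hε]
    apply one_div_le_one_div_of_le (by positivity)
    have : (j:ℝ) ≤ k := by exact_mod_cast hjk
    linarith
  have hεlim : Tendsto ε atTop (𝓝 0) := by
    have h1 : Tendsto (fun n : ℕ => (n : ℝ) + 2) atTop atTop :=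
      tendsto_atTop_add_const_right _ _ tendsto_natCast_atTop_atTop
    simp only [hε, one_div]
    exact h1.inv_tendsto_atTop
  set v : ℕ → ℝ := fun k => Ve I π (ε k) with hv
  have hvmono : Monotone v := fun j k hjk => Ve_anti hI hne (hε0 k) (hεanti j k hjk) (hε1 j)
  have hvb : BddAbove (range v) := ⟨R, by rintro _ ⟨k, rfl⟩; exact hR _ (hε0 k) (hε1 k)⟩
  have hvlim := tendsto_atTop_ciSup hvmono hvb
  set vi := ⨆ k, v k with hvinf
  have hvle : ∀ k, v k ≤ vi := fun k => le_ciSup hvb k
  have happ : ∀ k, ∃ c, IsCnt I c ∧ Fe π (ε k) c < Ve I π (ε k) + ε k := fun k =>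
    Ve_approx hne (ε k) (hε0 k)
  choose a ha halt using happ
  -- the subsequence
  have hsub : ∀ i : ℕ, ∃ n, vi - v n + ε n ≤ (1/16) ^ (i + 1) / 64 := by
    intro i
    have h1 : Tendsto (fun n => vi - v n + ε n) atTop (𝓝 (vi - vi + 0)) :=
      (tendsto_const_nhds.sub hvlim).add hεlim
    rw [sub_self, zero_add] at h1
    have h2 : (0:ℝ) < (1/16) ^ (i + 1) / 64 := by positivity
    exact (h1.eventually_le_const h2).exists
  choose n₀ hn₀ using hsub
  -- make it monotone
  set n : ℕ → ℕ := fun i => ∑ j ∈ Finset.range (i + 1), n₀ j with hn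
  have hnmono : Monotone n := by
    apply monotone_nat_of_le_succ
    intro i
    simp only [hn]
    rw [Finset.sum_range_succ _ (i + 1)]
    omega
  have hnn₀ : ∀ i, n₀ i ≤ n i := fun i =>
    Finset.single_le_sum (f := n₀) (fun _ _ => Nat.zero_le _) (Finset.mem_range.2 (Nat.lt_succ_self i))
  have hni : ∀ i, vi - v (n i) + ε (n i) ≤ (1/16) ^ (i + 1) / 64 := by
    intro i
    refine le_trans ?_ (hn₀ i)
    have h1 := hvmono (hnn₀ i)
    have h2 := hεanti _ _ (hnn₀ i)
    linarith
  -- distances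
  have hdist : ∀ i k, n i ≤ k → ∫ x, ((a (n i) x).toReal - (a k x).toReal) ^ 2 ∂π
      ≤ (1/16) ^ (i + 1) / 2 := by
    intro i k hik
    have h1 : Fe π (ε (n i)) (a (n i)) ≤ Ve I π (ε (n i)) + (vi - v (n i) + ε (n i)) := by
      have := halt (n i); have := hvle (n i); linarith
    have h2 : Fe π (ε k) (a k) ≤ Ve I π (ε (n i)) + (vi - v (n i) + ε (n i)) := by
      have := halt k
      have e1 := hvle k
      have e2 := hεanti _ _ hik
      simp only [hv] at *
      linarith
    have h3 := near_min (π := π) hI (hε0 k) (hεanti _ _ hik) (hεh _) (ha (n i)) (ha k) h1 h2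
    refine h3.trans ?_
    have := hni i
    linarith
  -- almost everywhere convergence
  have hmeas : ∀ i, Measurable fun x => (a (n i) x).toReal := fun i =>
    (cnt_meas hI (ha (n i))).ennreal_toReal
  have hcau : ∀ N m k : ℕ, N ≤ m → N ≤ k →
      eLpNorm ((fun x => (a (n m) x).toReal) - (fun x => (a (n k) x).toReal)) 2 π
        < ENNReal.ofReal ((1/4) ^ N) := by
    have key : ∀ N m k : ℕ, N ≤ m → m ≤ k →
        eLpNorm ((fun x => (a (n m) x).toReal) - (fun x => (a (n k) x).toReal)) 2 π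
        < ENNReal.ofReal ((1/4) ^ N) := by
      intro N m k hNm hmk
      have h1 := hdist m (n k) (hnmono hmk)
      have h2 : eLpNorm ((fun x => (a (n m) x).toReal) - (fun x => (a (n k) x).toReal)) 2 π ^ 2
          = ENNReal.ofReal (∫ x, ((a (n m) x).toReal - (a (n k) x).toReal) ^ 2 ∂π) := by
        rw [eLpNorm_eq_lintegral_rpow_enorm_toReal (by norm_num) (by norm_num)]
        rw [ENNReal.toReal_ofNat, ← ENNReal.rpow_natCast, ← ENNReal.rpow_mul]
        norm_num
        rw [ofReal_integral_eq_lintegral_ofReal]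
        · congr 1
          funext x
          rw [← enorm_pow, Real.enorm_eq_ofReal (sq_nonneg _)]
        · apply Integrable.of_bound
            (((hmeas m).sub (hmeas k)).pow_const 2).aestronglyMeasurable 1
          filter_upwards with x
          rw [Real.norm_eq_abs, abs_of_nonneg (sq_nonneg _)]
          have a1 := cr_nonneg (a (n m)) x
          have a2 := cr_le (ha (n m)) x
          have a3 := cr_nonneg (a (n k)) x
          have a4 := cr_le (ha (n k)) x
          change ((a (n m) x).toReal - (a (n k) x).toReal) ^ 2 ≤ 1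
          nlinarith
        · filter_upwards with x; exact sq_nonneg _
      have h3 : eLpNorm ((fun x => (a (n m) x).toReal) - (fun x => (a (n k) x).toReal)) 2 π ^ 2
          < ENNReal.ofReal ((1/4) ^ N) ^ 2 := by
        rw [h2, ← ENNReal.ofReal_pow (by positivity)]
        apply (ENNReal.ofReal_lt_ofReal_iff (by positivity)).2
        refine lt_of_le_of_lt h1 ?_
        have h4 : ((1:ℝ)/16) ^ (m + 1) ≤ (1/16) ^ (N + 1) :=
          pow_le_pow_of_le_one (by norm_num) (by norm_num) (by omega)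
        have h5 : (((1:ℝ)/4) ^ N) ^ 2 = (1/16) ^ N := by
          rw [← pow_mul, mul_comm, pow_mul]; norm_num
        rw [h5]
        have h6 : (0:ℝ) < (1/16) ^ N := by positivity
        have h7 : ((1:ℝ)/16) ^ (N + 1) = (1/16) ^ N * (1/16) := pow_succ _ _
        rw [h7] at h4
        linarith
      by_contra hcon
      exact absurd h3 (not_lt.2 (pow_le_pow_left' (not_lt.1 hcon) 2))
    intro N m k hNm hNk
    rcases le_total m k with h | h
    · exact key N m k hNm h
    · rw [eLpNorm_sub_comm]; exact key N k m hNk h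
  have hB : ∑' N : ℕ, ENNReal.ofReal (((1:ℝ)/4) ^ N) ≠ ⊤ := by
    rw [← ENNReal.ofReal_tsum_of_nonneg (fun N => by positivity)
      (summable_geometric_of_lt_one (by norm_num) (by norm_num))]
    exact ENNReal.ofReal_ne_top
  have hae := Lp.ae_tendsto_of_cauchy_eLpNorm (μ := π) (f := fun i x => (a (n i) x).toReal)
    (fun i => (hmeas i).aestronglyMeasurable) (by norm_num : (1:ℝ≥0∞) ≤ 2) hB hcau
  obtain ⟨g, hgm, hg⟩ := measurable_limit_of_tendsto_metrizable_ae
    (fun i => (hmeas i).aemeasurable) hae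
  refine ⟨fun i => a (n i), g, fun i => ha _, hgm, hg, ?_, ?_⟩
  · -- Fatou
    have hninf : Tendsto (fun i => ε (n i)) atTop (𝓝 0) := by
      apply squeeze_zero (fun i => (hε0 _).le) (g := fun i : ℕ => ((1:ℝ)/16) ^ (i+1) / 64)
      · intro i
        have := hni i
        have := hvle (n i)
        linarith
      · have : Tendsto (fun i : ℕ => ((1:ℝ)/16) ^ (i+1) / 64) atTop (𝓝 (0 / 64)) :=
          ((tendsto_pow_atTop_nhds_zero_of_lt_one (by norm_num) (by norm_num)).comp
            (tendsto_add_atTop_nat 1)).div_const 64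
        simpa using this
    have h1 : ∀ᵐ x ∂π, nlog (g x)
        ≤ liminf (fun i => ENNReal.ofReal (-Real.log (Bf (ε (n i)) (a (n i)) x))) atTop := by
      filter_upwards [hg] with x hx
      have hBl : Tendsto (fun i => Bf (ε (n i)) (a (n i)) x) atTop (𝓝 (g x)) := by
        unfold Bf
        have := ((tendsto_const_nhds (x := (1:ℝ))).sub hninf).mul hx |>.add hninf
        simpa using this
      have hBpos : ∀ i, 0 < Bf (ε (n i)) (a (n i)) x := fun i =>
        (hε0 _).trans_le (Bf_ge (hε1 _) _ _)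
      have hg0 : 0 ≤ g x := ge_of_tendsto' hx fun i => cr_nonneg _ _
      rcases hg0.eq_or_lt with h | h
      · -- the value zero
        have h2 : Tendsto (fun i => Bf (ε (n i)) (a (n i)) x) atTop (𝓝[>] 0) := by
          rw [tendsto_nhdsWithin_iff]
          refine ⟨by rw [h]; exact hBl, Eventually.of_forall hBpos⟩
        have h3 : Tendsto (fun i => -Real.log (Bf (ε (n i)) (a (n i)) x)) atTop atTop :=
          tendsto_neg_atBot_atTop.comp (Real.tendsto_log_nhdsGT_zero.comp h2)
        have h4 := ENNReal.tendsto_ofReal_atTop.comp h3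
        have h5 := h4.liminf_eq
        simp only [Function.comp_def] at h5
        rw [h5]; exact le_top
      · have h3 : Tendsto (fun i => -Real.log (Bf (ε (n i)) (a (n i)) x)) atTop
            (𝓝 (-Real.log (g x))) := (hBl.log h.ne').neg
        have h4 := (ENNReal.tendsto_ofReal h3).liminf_eq
        rw [h4, nlog_of_pos h]
    calc ∫⁻ x, nlog (g x) ∂π
        ≤ ∫⁻ x, liminf (fun i => ENNReal.ofReal (-Real.log (Bf (ε (n i)) (a (n i)) x))) atTop ∂π :=
          lintegral_mono_ae h1
      _ ≤ liminf (fun i => ∫⁻ x, ENNReal.ofReal (-Real.log (Bf (ε (n i)) (a (n i)) x)) ∂π) atTop := by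
          apply lintegral_liminf_le
          intro i
          exact (Real.measurable_log.comp (Bf_meas hI _ (ha _))).neg.ennreal_ofReal
      _ ≤ liminf (fun _ : ℕ => ENNReal.ofReal (R + 1)) atTop := by
          refine liminf_le_liminf ?_ (by isBoundedDefault) (by isBoundedDefault)
          filter_upwards with i
          rw [← ofReal_integral_eq_lintegral_ofReal (logB_int hI (hε0 _) (hε1 _) (ha _))]
          · apply ENNReal.ofReal_le_ofReal
            have e1 := halt (n i)
            have e2 := hR _ (hε0 (n i)) (hε1 (n i))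
            have e3 := hεh (n i)
            have e4 : Fe π (ε (n i)) (a (n i)) = ∫ x, -Real.log (Bf (ε (n i)) (a (n i)) x) ∂π := rfl
            linarith
          · filter_upwards with x
            exact (logB_bound (hε0 _) (hε1 _) (ha _) x).1
      _ = ENNReal.ofReal (R + 1) := by simp
  · filter_upwards [hg] with x hx
    exact le_of_tendsto' hx fun i => cr_le (ha _) x

theorem half_sum : ∑' k : ℕ, ((2:ℝ≥0∞)⁻¹) ^ (k + 1) = 1 := by
  have h : ∀ k : ℕ, ((2:ℝ≥0∞)⁻¹) ^ (k + 1) = 2⁻¹ * (2⁻¹) ^ k := fun k => pow_succ' _ _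
  simp only [h]
  rw [ENNReal.tsum_mul_left, ENNReal.tsum_geometric, ENNReal.one_sub_inv_two, inv_inv]
  exact ENNReal.inv_mul_cancel (by norm_num) (by norm_num)

/-- a countable combination with finite entropy -/
theorem finite_exists (hI : ∀ J ∈ I, MeasurableSet J) (hne : I.Nonempty) {R : ℝ}
    (hR : ∀ ε, 0 < ε → ε < 1 → Ve I π ε ≤ R) :
    ∃ m : Ω → ℝ≥0∞, IsCnt I m ∧ ∫⁻ x, nlog (m x).toReal ∂π < ⊤ := by
  obtain ⟨c, g, hc, hgm, hg, hgint, hg1⟩ := limit_exists (π := π) hI hne hR
  have hgfin : ∫⁻ x, nlog (g x) ∂π < ⊤ := hgint.trans_lt ENNReal.ofReal_lt_top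
  have hgpos : ∀ᵐ x ∂π, 0 < g x := by
    filter_upwards [ae_lt_top (nlog_meas.comp hgm) hgfin.ne] with x hx
    by_contra h
    have : nlog (g x) = ⊤ := by unfold nlog; rw [if_pos (not_lt.1 h)]
    rw [Function.comp, this] at hx
    exact lt_irrefl _ hx
  set S : ℕ → Set Ω := fun i => {x | (c i x).toReal < g x / 2} with hS
  have hSm : ∀ i, MeasurableSet (S i) := fun i =>
    measurableSet_lt (cnt_meas hI (hc i)).ennreal_toReal (hgm.div_const 2)
  have hlim : Tendsto (fun i => π (S i)) atTop (𝓝 0) := by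
    have h1 : Tendsto (fun i => ∫⁻ x, (S i).indicator 1 x ∂π) atTop (𝓝 (∫⁻ _x, 0 ∂π)) := by
      apply tendsto_lintegral_of_dominated_convergence (fun _ => 1)
      · intro i; exact measurable_one.indicator (hSm i)
      · intro i
        filter_upwards with x
        exact indicator_le_self' (by simp) x
      · simp
      · filter_upwards [hg, hgpos] with x hx hx0
        have h2 : ∀ᶠ i in atTop, g x / 2 < (c i x).toReal :=
          hx.eventually_const_lt (by linarith)
        apply tendsto_const_nhds.congr'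
        filter_upwards [h2] with i hi
        rw [indicator_of_notMem]
        intro hxi
        have : (c i x).toReal < g x / 2 := hxi
        linarith
    rw [lintegral_zero] at h1
    refine h1.congr fun i => ?_
    rw [lintegral_indicator_one (hSm i)]
  have hgood : ∀ k : ℕ, ∃ i, π (S i) ≤ (2⁻¹) ^ (k + 1) := by
    intro k
    have h2 : (0:ℝ≥0∞) < (2⁻¹) ^ (k + 1) := by
      apply ENNReal.pow_pos
      simp
    exact (hlim.eventually_le_const h2).exists
  choose i hi using hgood
  set m : Ω → ℝ≥0∞ := fun x => ∑' k : ℕ, ((2:ℝ≥0∞)⁻¹) ^ (k + 1) * c (i k) x with hm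
  have hmc : IsCnt I m := cnt_mix half_sum fun k => hc (i k)
  have hlog2 : 0 < Real.log 2 := Real.log_pos (by norm_num)
  have hbound : ∀ x, 0 < g x → nlog (m x).toReal
      ≤ nlog (g x) + ENNReal.ofReal (Real.log 2) * (2 + ∑' k, (S (i k)).indicator 1 x) := by
    intro x hx
    by_cases hex : ∃ k, x ∉ S (i k)
    · classical
      set K := Nat.find hex with hK
      have hKs : x ∉ S (i K) := Nat.find_spec hex
      have hKm : ∀ j < K, x ∈ S (i j) := fun j hj => by
        by_contra h; exact Nat.find_min hex hj h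
      have h1 : g x / 2 ≤ (c (i K) x).toReal := not_lt.1 hKs
      have h2 : (1/2 : ℝ) ^ (K + 2) * g x ≤ (m x).toReal := by
        have h3 : ((2:ℝ≥0∞)⁻¹) ^ (K + 1) * c (i K) x ≤ m x := ENNReal.le_tsum K
        have hmtop : m x ≠ ⊤ := ne_top_of_le_ne_top ENNReal.one_ne_top (cnt_le_one hmc x)
        have h4 := ENNReal.toReal_mono hmtop h3
        rw [ENNReal.toReal_mul, ENNReal.toReal_pow, ENNReal.toReal_inv, ENNReal.toReal_ofNat] at h4
        refine le_trans ?_ h4
        calc (1/2 : ℝ) ^ (K + 2) * g x = (2⁻¹) ^ (K + 1) * (g x / 2) := by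
              rw [pow_succ, one_div]; ring
          _ ≤ (2⁻¹) ^ (K + 1) * (c (i K) x).toReal :=
              mul_le_mul_of_nonneg_left h1 (by positivity)
      have h5 : nlog (m x).toReal ≤ ENNReal.ofReal (-Real.log ((1/2 : ℝ) ^ (K + 2))) + nlog (g x) :=
        (nlog_mono h2).trans (nlog_mul (by positivity))
      have h6 : -Real.log ((1/2 : ℝ) ^ (K + 2)) = Real.log 2 * ((K + 2 : ℕ) : ℝ) := by
        rw [Real.log_pow, one_div, Real.log_inv]; push_cast; ring
      have h7 : ENNReal.ofReal (-Real.log ((1/2 : ℝ) ^ (K + 2)))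
          ≤ ENNReal.ofReal (Real.log 2) * (2 + ∑' k, (S (i k)).indicator 1 x) := by
        rw [h6, ENNReal.ofReal_mul hlog2.le, ENNReal.ofReal_natCast]
        gcongr
        rw [Nat.cast_add, add_comm, Nat.cast_ofNat]
        gcongr
        calc (K : ℝ≥0∞) = ∑ _k ∈ Finset.range K, (1:ℝ≥0∞) := by simp
          _ = ∑ k ∈ Finset.range K, (S (i k)).indicator (1 : Ω → ℝ≥0∞) x := by
              apply Finset.sum_congr rfl
              intro k hk
              rw [indicator_of_mem (hKm k (Finset.mem_range.1 hk))]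
              rfl
          _ ≤ _ := ENNReal.sum_le_tsum _
      calc nlog (m x).toReal ≤ _ := h5
        _ ≤ ENNReal.ofReal (Real.log 2) * (2 + ∑' k, (S (i k)).indicator 1 x) + nlog (g x) := by
            gcongr
        _ = _ := add_comm _ _
    · push Not at hex
      have h1 : ∑' k, (S (i k)).indicator (1 : Ω → ℝ≥0∞) x = ⊤ := by
        have : ∀ k, (S (i k)).indicator (1 : Ω → ℝ≥0∞) x = 1 := fun k => by
          rw [indicator_of_mem (hex k)]; rfl
        simp only [this]
        exact ENNReal.tsum_const_eq_top_of_ne_zero one_ne_zero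
      rw [h1]
      have h2 : ENNReal.ofReal (Real.log 2) * (2 + ⊤) = ⊤ := by
        rw [add_top, ENNReal.mul_top]
        exact (ENNReal.ofReal_pos.2 hlog2).ne'
      rw [h2, add_top]; exact le_top
  refine ⟨m, hmc, ?_⟩
  have hmeas1 : ∀ k, Measurable ((S (i k)).indicator (1 : Ω → ℝ≥0∞)) := fun k =>
    measurable_one.indicator (hSm _)
  have hng : Measurable fun x => nlog (g x) := nlog_meas.comp hgm
  calc ∫⁻ x, nlog (m x).toReal ∂π
      ≤ ∫⁻ x, (nlog (g x) + ENNReal.ofReal (Real.log 2)
          * (2 + ∑' k, (S (i k)).indicator 1 x)) ∂π := by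
        apply lintegral_mono_ae
        filter_upwards [hgpos] with x hx using hbound x hx
    _ = ∫⁻ x, nlog (g x) ∂π + ENNReal.ofReal (Real.log 2) * (2 + ∑' k, π (S (i k))) := by
        rw [lintegral_add_left hng, lintegral_const_mul]
        · congr 2
          rw [lintegral_add_left measurable_const, lintegral_const, measure_univ, mul_one,
            lintegral_tsum fun k => (hmeas1 k).aemeasurable]
          congr 1
          congr 1; funext k
          exact lintegral_indicator_one (hSm _)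
        · exact measurable_const.add (Measurable.tsum hmeas1)
    _ ≤ ∫⁻ x, nlog (g x) ∂π + ENNReal.ofReal (Real.log 2) * (2 + 1) := by
        gcongr
        rw [← half_sum]
        exact ENNReal.tsum_le_tsum hi
    _ < ⊤ := by
        apply ENNReal.add_lt_top.2
        refine ⟨hgfin, ?_⟩
        apply ENNReal.mul_lt_top ENNReal.ofReal_lt_top
        norm_num

theorem stepC (hI : ∀ J ∈ I, MeasurableSet J) (hne : I.Nonempty) {R : ℝ}
    (hR : ∀ ε, 0 < ε → ε < 1 → Ve I π ε + Real.log (1 - ε) ≤ R) :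
    Hcnt I π ≤ ENNReal.ofReal R := by
  have hVR : ∀ ε, 0 < ε → ε < 1 → Ve I π ε ≤ R := fun ε h0 h1 => Ve_le_R hI hne hR h0 h1
  obtain ⟨m, hmc, hmfin⟩ := finite_exists (π := π) hI hne hVR
  set M : Ω → ℝ := fun x => (m x).toReal with hM
  have hMm : Measurable M := (cnt_meas hI hmc).ennreal_toReal
  have hMpos : ∀ᵐ x ∂π, 0 < M x := by
    filter_upwards [ae_lt_top (nlog_meas.comp hMm) hmfin.ne] with x hx
    by_contra h
    have : nlog (M x) = ⊤ := by unfold nlog; rw [if_pos (not_lt.1 h)]
    rw [Function.comp, this] at hx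
    exact lt_irrefl _ hx
  set ε : ℕ → ℝ := fun k => 1 / ((k : ℝ) + 2) with hε
  have hε0 : ∀ k, 0 < ε k := fun k => by simp only [hε]; positivity
  have hε1 : ∀ k, ε k < 1 := fun k => by
    simp only [hε]
    rw [div_lt_one (by positivity)]
    have : (0:ℝ) ≤ k := Nat.cast_nonneg k
    linarith
  have hεlim : Tendsto ε atTop (𝓝 0) := by
    have h1 : Tendsto (fun n : ℕ => (n : ℝ) + 2) atTop atTop :=
      tendsto_atTop_add_const_right _ _ tendsto_natCast_atTop_atTop
    simp only [hε, one_div]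
    exact h1.inv_tendsto_atTop
  have happ : ∀ k, ∃ c, IsCnt I c ∧ Fe π (ε k) c < Ve I π (ε k) + ε k := fun k =>
    Ve_approx hne (ε k) (hε0 k)
  choose a ha halt using happ
  -- fixed `t`
  have hfix : ∀ t : ℝ, 0 < t → t < 1 →
      Hcnt I π ≤ ENNReal.ofReal R + ENNReal.ofReal (-Real.log (1 - t)) := by
    intro t ht0 ht1
    have htE : ENNReal.ofReal t ≤ 1 := by
      rw [← ENNReal.ofReal_one]; exact ENNReal.ofReal_le_ofReal ht1.le
    set h : ℕ → Ω → ℝ≥0∞ := fun j => {x | t * M x < ε j}.indicator fun x => nlog (t * M x) with hh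
    have hhm : ∀ j, Measurable (h j) := fun j =>
      (nlog_meas.comp (hMm.const_mul t)).indicator (measurableSet_lt (hMm.const_mul t) measurable_const)
    have hhlim : Tendsto (fun j => ∫⁻ x, h j x ∂π) atTop (𝓝 (∫⁻ _x, 0 ∂π)) := by
      apply tendsto_lintegral_of_dominated_convergence (fun x => nlog (t * M x))
      · exact hhm
      · intro j
        filter_upwards with x
        exact indicator_le_self' (fun _ _ => zero_le) x
      · refine ne_of_lt ?_
        calc ∫⁻ x, nlog (t * M x) ∂π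
            ≤ ∫⁻ x, (ENNReal.ofReal (-Real.log t) + nlog (M x)) ∂π :=
              lintegral_mono fun x => nlog_mul ht0
          _ = ENNReal.ofReal (-Real.log t) + ∫⁻ x, nlog (M x) ∂π := by
              rw [lintegral_add_left measurable_const]; simp
          _ < ⊤ := ENNReal.add_lt_top.2 ⟨ENNReal.ofReal_lt_top, hmfin⟩
      · filter_upwards [hMpos] with x hx
        have h2 : ∀ᶠ j in atTop, ε j < t * M x := hεlim.eventually_lt_const (mul_pos ht0 hx)
        apply tendsto_const_nhds.congr'
        filter_upwards [h2] with j hj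
        simp only [hh]
        rw [indicator_of_notMem]
        intro hxj
        have : t * M x < ε j := hxj
        linarith
    rw [lintegral_zero] at hhlim
    have hj : ∀ j, Hcnt I π ≤ ENNReal.ofReal (R + ε j) + ENNReal.ofReal (-Real.log (1 - t))
        + ∫⁻ x, h j x ∂π := by
      intro j
      set c' : Ω → ℝ≥0∞ := fun x => (1 - ENNReal.ofReal t) * a j x + ENNReal.ofReal t * m x with hc'
      have hc'c : IsCnt I c' := cnt_mix2 htE (ha j) hmc
      have hc'r : ∀ x, (c' x).toReal = (1 - t) * (a j x).toReal + t * M x := by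
        intro x
        have hcx : a j x ≠ ⊤ := ne_top_of_le_ne_top ENNReal.one_ne_top (cnt_le_one (ha j) x)
        have hdx : m x ≠ ⊤ := ne_top_of_le_ne_top ENNReal.one_ne_top (cnt_le_one hmc x)
        simp only [hc', hM]
        rw [ENNReal.toReal_add, ENNReal.toReal_mul, ENNReal.toReal_mul,
          ENNReal.toReal_sub_of_le htE ENNReal.one_ne_top, ENNReal.toReal_ofReal ht0.le]
        · simp
        · exact ENNReal.mul_ne_top (by simp) hcx
        · exact ENNReal.mul_ne_top ENNReal.ofReal_ne_top hdx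
      have hpt : ∀ x, nlog (c' x).toReal ≤ ENNReal.ofReal (-Real.log (Bf (ε j) (a j) x))
          + ENNReal.ofReal (-Real.log (1 - t)) + h j x := by
        intro x
        have hA0 := cr_nonneg (a j) x
        have hA1 := cr_le (ha j) x
        rw [hc'r]
        by_cases hx : t * M x < ε j
        · have e1 : h j x = nlog (t * M x) := by
            simp only [hh]; exact indicator_of_mem (show x ∈ {x | t * M x < ε j} from hx) _
          rw [e1]
          refine le_trans (nlog_mono ?_) le_add_self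
          have := mul_nonneg (by linarith : 0 ≤ 1 - t) hA0
          linarith
        · push Not at hx
          have hB := (hε0 j).trans_le (Bf_ge (hε1 j) (a j) x)
          have e1 : (1 - t) * Bf (ε j) (a j) x ≤ (1 - t) * (a j x).toReal + t * M x := by
            unfold Bf
            have h1 := mul_nonneg (by linarith : 0 ≤ 1 - t) (mul_nonneg (hε0 j).le hA0)
            have h2 : t * ε j ≥ 0 := mul_nonneg ht0.le (hε0 j).le
            nlinarith
          calc nlog ((1 - t) * (a j x).toReal + t * M x) ≤ nlog ((1 - t) * Bf (ε j) (a j) x) :=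
                nlog_mono e1
            _ ≤ ENNReal.ofReal (-Real.log (1 - t)) + nlog (Bf (ε j) (a j) x) :=
                nlog_mul (by linarith)
            _ = ENNReal.ofReal (-Real.log (Bf (ε j) (a j) x)) + ENNReal.ofReal (-Real.log (1 - t)) := by
                rw [nlog_of_pos hB, add_comm]
            _ ≤ _ := le_self_add
      have hFm : Measurable fun x => ENNReal.ofReal (-Real.log (Bf (ε j) (a j) x)) :=
        (Real.measurable_log.comp (Bf_meas hI _ (ha j))).neg.ennreal_ofReal
      calc Hcnt I π ≤ ∫⁻ x, nlog (c' x).toReal ∂π := iInf₂_le c' hc'c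
        _ ≤ ∫⁻ x, (ENNReal.ofReal (-Real.log (Bf (ε j) (a j) x))
          + ENNReal.ofReal (-Real.log (1 - t)) + h j x) ∂π := lintegral_mono hpt
        _ = ∫⁻ x, ENNReal.ofReal (-Real.log (Bf (ε j) (a j) x)) ∂π
            + ENNReal.ofReal (-Real.log (1 - t)) + ∫⁻ x, h j x ∂π := by
            rw [lintegral_add_right _ (hhm j), lintegral_add_left hFm]
            simp
        _ ≤ _ := by
            gcongr
            rw [← ofReal_integral_eq_lintegral_ofReal (logB_int hI (hε0 _) (hε1 _) (ha _))]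
            · apply ENNReal.ofReal_le_ofReal
              have e1 := halt j
              have e2 := hVR _ (hε0 j) (hε1 j)
              have e4 : Fe π (ε j) (a j) = ∫ x, -Real.log (Bf (ε j) (a j) x) ∂π := rfl
              linarith
            · filter_upwards with x
              exact (logB_bound (hε0 _) (hε1 _) (ha _) x).1
    have hl : Tendsto (fun j => ENNReal.ofReal (R + ε j) + ENNReal.ofReal (-Real.log (1 - t))
        + ∫⁻ x, h j x ∂π) atTop
        (𝓝 (ENNReal.ofReal (R + 0) + ENNReal.ofReal (-Real.log (1 - t)) + 0)) :=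
      ((ENNReal.tendsto_ofReal (tendsto_const_nhds.add hεlim)).add tendsto_const_nhds).add hhlim
    have := ge_of_tendsto' hl hj
    simpa using this
  -- `t → 0`
  have hl : Tendsto (fun t : ℝ => ENNReal.ofReal R + ENNReal.ofReal (-Real.log (1 - t))) (𝓝[>] 0)
      (𝓝 (ENNReal.ofReal R + ENNReal.ofReal (-Real.log (1 - 0)))) := by
    apply tendsto_const_nhds.add
    apply ENNReal.tendsto_ofReal
    have : ContinuousAt (fun t : ℝ => -Real.log (1 - t)) 0 := by
      apply ContinuousAt.neg
      apply ContinuousAt.log (by fun_prop)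
      norm_num
    exact this.tendsto.mono_left nhdsWithin_le_nhds
  have hev : ∀ᶠ t in 𝓝[>] (0:ℝ), Hcnt I π ≤ ENNReal.ofReal R + ENNReal.ofReal (-Real.log (1 - t)) := by
    filter_upwards [Ioo_mem_nhdsGT (zero_lt_one' ℝ)] with t ht using hfix t ht.1 ht.2
  have := ge_of_tendsto hl hev
  simpa using this

end stepC

/-! ### Weak duality for compatible measures -/

section dual

variable {I : Set (Set Ω)} {π : Measure Ω} [IsProbabilityMeasure π]

/-- weak duality -/
theorem weak_dual {Y : Type*} [MeasurableSpace Y] {β : Measure Y} [IsProbabilityMeasure β]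
    {J : Y → Set Ω} (hJm : ∀ y, MeasurableSet (J y))
    (hN : NullMeasurableSet {p : Y × Ω | p.2 ∈ J p.1} (β.prod π))
    {b : Ω → ℝ} (hb : Measurable b) {c₁ c₂ : ℝ} (hc₁ : 0 < c₁) (hb1 : ∀ x, c₁ ≤ b x)
    (hb2 : ∀ x, b x ≤ c₂) (hJ : ∀ y, ∫ x in J y, (b x)⁻¹ ∂π ≤ 1) {R : ℝ} (hR0 : 0 ≤ R)
    (hR : ∫⁻ x, nlog (β {y | x ∈ J y}).toReal ∂π ≤ ENNReal.ofReal R) :
    ∫ x, -Real.log (b x) ∂π ≤ R := by
  have hbpos : ∀ x, 0 < b x := fun x => hc₁.trans_le (hb1 x)
  obtain ⟨E', -, hE'm, hae⟩ := hN.exists_measurable_superset_ae_eq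
  have h1 : ∀ᵐ y ∂β, ∀ᵐ x ∂π, ((y, x) ∈ E' ↔ x ∈ J y) := by
    have := Measure.ae_ae_of_ae_prod hae
    filter_upwards [this] with y hy
    filter_upwards [hy] with x hx
    exact Iff.of_eq hx
  have h2 : ∀ᵐ x ∂π, ∀ᵐ y ∂β, ((y, x) ∈ E' ↔ x ∈ J y) := by
    have h3 := (Measure.measurePreserving_swap (μ := π) (ν := β)).quasiMeasurePreserving.ae hae
    have := Measure.ae_ae_of_ae_prod h3
    filter_upwards [this] with x hx
    filter_upwards [hx] with y hy
    exact Iff.of_eq hy
  set A : Ω → ℝ≥0∞ := fun x => β ((fun y => (y, x)) ⁻¹' E') with hA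
  have hAm : Measurable A := measurable_measure_prodMk_right hE'm
  have hA1 : ∀ x, A x ≤ 1 := fun x => prob_le_one
  have hAJ : ∀ᵐ x ∂π, A x = β {y | x ∈ J y} := by
    filter_upwards [h2] with x hx
    apply measure_congr
    filter_upwards [hx] with y hy
    exact propext hy
  set w : Ω → ℝ≥0∞ := fun x => ENNReal.ofReal (b x)⁻¹ with hw
  have hwm : Measurable w := hb.inv.ennreal_ofReal
  -- the Tonelli estimate
  have hT : ∫⁻ x, A x * w x ∂π ≤ 1 := by
    have e1 : ∀ x, A x * w x = ∫⁻ y, E'.indicator 1 (y, x) * w x ∂β := by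
      intro x
      rw [lintegral_mul_const]
      · congr 1
        have : ∀ y, E'.indicator (1 : Y × Ω → ℝ≥0∞) (y, x)
            = ((fun y => (y, x)) ⁻¹' E').indicator 1 y := fun y => rfl
        simp only [this]
        rw [lintegral_indicator_one (hE'm.preimage measurable_prodMk_right)]
      · exact (measurable_one.indicator hE'm).comp measurable_prodMk_right
    simp only [e1]
    rw [lintegral_lintegral_swap]
    · have e2 : ∀ᵐ y ∂β, ∫⁻ x, E'.indicator 1 (y, x) * w x ∂π ≤ 1 := by
        filter_upwards [h1] with y hy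
        have e3 : ∫⁻ x, E'.indicator 1 (y, x) * w x ∂π = ∫⁻ x in J y, w x ∂π := by
          rw [← lintegral_indicator (hJm y)]
          apply lintegral_congr_ae
          filter_upwards [hy] with x hx
          by_cases hxy : x ∈ J y
          · rw [indicator_of_mem hxy, indicator_of_mem (hx.2 hxy)]; simp
          · rw [indicator_of_notMem hxy, indicator_of_notMem (fun h => hxy (hx.1 h))]; simp
        rw [e3]
        have e4 : Integrable (fun x => (b x)⁻¹) (π.restrict (J y)) := by
          apply Integrable.of_bound hb.inv.aestronglyMeasurable c₁⁻¹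
          filter_upwards with x
          rw [Pi.inv_apply, Real.norm_eq_abs, abs_of_pos (inv_pos.2 (hbpos x))]
          exact inv_anti₀ hc₁ (hb1 x)
        rw [hw, ← ofReal_integral_eq_lintegral_ofReal e4]
        · rw [← ENNReal.ofReal_one]
          exact ENNReal.ofReal_le_ofReal (hJ y)
        · filter_upwards with x using (inv_pos.2 (hbpos x)).le
      calc ∫⁻ y, ∫⁻ x, E'.indicator 1 (y, x) * w x ∂π ∂β ≤ ∫⁻ _y, 1 ∂β := lintegral_mono_ae e2
        _ = 1 := by simp
    · have : Measurable (Function.uncurry fun (x : Ω) (y : Y) =>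
          E'.indicator (1 : Y × Ω → ℝ≥0∞) (y, x) * w x) :=
        ((measurable_one.indicator hE'm).comp measurable_swap).mul (hwm.comp measurable_fst)
      exact this.aemeasurable
  -- real versions
  set a : Ω → ℝ := fun x => (A x).toReal with ha
  have ham : Measurable a := hAm.ennreal_toReal
  have ha0 : ∀ x, 0 ≤ a x := fun x => ENNReal.toReal_nonneg
  have ha1 : ∀ x, a x ≤ 1 := fun x => by
    have := ENNReal.toReal_mono ENNReal.one_ne_top (hA1 x)
    simpa using this
  have hab : Integrable (fun x => a x * (b x)⁻¹) π := by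
    apply Integrable.of_bound (ham.mul hb.inv).aestronglyMeasurable c₁⁻¹
    filter_upwards with x
    rw [Pi.mul_apply, Pi.inv_apply, Real.norm_eq_abs,
      abs_of_nonneg (mul_nonneg (ha0 x) (inv_pos.2 (hbpos x)).le)]
    calc a x * (b x)⁻¹ ≤ 1 * c₁⁻¹ :=
          mul_le_mul (ha1 x) (inv_anti₀ hc₁ (hb1 x)) (inv_pos.2 (hbpos x)).le zero_le_one
      _ = c₁⁻¹ := one_mul _
  have hab1 : ∫ x, a x * (b x)⁻¹ ∂π ≤ 1 := by
    rw [integral_eq_lintegral_of_nonneg_ae]
    · have e1 : ∀ x, ENNReal.ofReal (a x * (b x)⁻¹) = A x * w x := by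
        intro x
        rw [ENNReal.ofReal_mul (ha0 x), ha]
        simp only [hw]
        rw [ENNReal.ofReal_toReal (ne_top_of_le_ne_top ENNReal.one_ne_top (hA1 x))]
      simp only [e1]
      have := ENNReal.toReal_mono ENNReal.one_ne_top hT
      simpa using this
    · filter_upwards with x using mul_nonneg (ha0 x) (inv_pos.2 (hbpos x)).le
    · exact hab.aestronglyMeasurable
  have hlint : ∫⁻ x, nlog (a x) ∂π ≤ ENNReal.ofReal R := by
    refine le_trans (le_of_eq ?_) hR
    apply lintegral_congr_ae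
    filter_upwards [hAJ] with x hx
    rw [ha]; simp only [hx]
  have hnm : Measurable fun x => nlog (a x) := nlog_meas.comp ham
  have hapos : ∀ᵐ x ∂π, 0 < a x := by
    filter_upwards [ae_lt_top hnm (hlint.trans_lt ENNReal.ofReal_lt_top).ne] with x hx
    by_contra h
    have : nlog (a x) = ⊤ := by unfold nlog; rw [if_pos (not_lt.1 h)]
    rw [this] at hx
    exact lt_irrefl _ hx
  have hla0 : ∀ x, 0 ≤ -Real.log (a x) := fun x => by
    have := Real.log_nonpos (ha0 x) (ha1 x); linarith
  have hlam : Measurable fun x => -Real.log (a x) := (Real.measurable_log.comp ham).neg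
  have hlal : ∫⁻ x, ENNReal.ofReal (-Real.log (a x)) ∂π ≤ ENNReal.ofReal R := by
    refine le_trans (le_of_eq ?_) hlint
    apply lintegral_congr_ae
    filter_upwards [hapos] with x hx
    rw [nlog_of_pos hx]
  have hlai : Integrable (fun x => -Real.log (a x)) π := by
    refine ⟨hlam.aestronglyMeasurable, ?_⟩
    rw [hasFiniteIntegral_iff_ofReal (Eventually.of_forall hla0)]
    exact hlal.trans_lt ENNReal.ofReal_lt_top
  have hlaR : ∫ x, -Real.log (a x) ∂π ≤ R := by
    rw [integral_eq_lintegral_of_nonneg_ae (Eventually.of_forall hla0) hlam.aestronglyMeasurable]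
    exact ENNReal.toReal_le_of_le_ofReal hR0 hlal
  have hlbi : Integrable (fun x => -Real.log (b x)) π := by
    apply Integrable.of_bound (Real.measurable_log.comp hb).neg.aestronglyMeasurable
      (max (-Real.log c₁) (Real.log c₂))
    filter_upwards with x
    rw [Real.norm_eq_abs]
    change |(-Real.log (b x))| ≤ _
    have h1 := Real.log_le_log hc₁ (hb1 x)
    have h2 := Real.log_le_log (hbpos x) (hb2 x)
    have h3 := le_max_left (-Real.log c₁) (Real.log c₂)
    have h4 := le_max_right (-Real.log c₁) (Real.log c₂)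
    rw [abs_le]
    constructor <;> linarith
  calc ∫ x, -Real.log (b x) ∂π ≤ ∫ x, (-Real.log (a x) + (a x * (b x)⁻¹ - 1)) ∂π := by
        apply integral_mono_ae hlbi
        · exact hlai.add (hab.sub (integrable_const _))
        · filter_upwards [hapos] with x hx
          have h3 : 0 < a x * (b x)⁻¹ := mul_pos hx (inv_pos.2 (hbpos x))
          have h4 := Real.log_le_sub_one_of_pos h3
          rw [Real.log_mul hx.ne' (inv_pos.2 (hbpos x)).ne', Real.log_inv] at h4
          linarith
    _ = (∫ x, -Real.log (a x) ∂π) + ((∫ x, a x * (b x)⁻¹ ∂π) - 1) := by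
        have e1 := integral_add (μ := π) hlai (hab.sub (integrable_const (1:ℝ)))
        have e2 := integral_sub (μ := π) hab (integrable_const (1:ℝ))
        simp only [Pi.sub_apply, integral_const, probReal_univ, one_smul] at e1 e2
        rw [e2] at e1
        exact e1
    _ ≤ R := by linarith

/-- the infima over countable combinations are below every compatible measure -/
theorem cnt_le_full (hI : ∀ J ∈ I, MeasurableSet J) : Hcnt I π ≤ Hfull I π := by
  unfold Hfull
  apply le_iInf
  rintro ⟨m, β, hβ, hcomp⟩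
  letI := m
  haveI := hβ
  simp only
  have hne : I.Nonempty := by
    have : Nonempty I := by
      by_contra hcon
      rw [not_nonempty_iff] at hcon
      have h1 : β univ = 1 := measure_univ
      rw [univ_eq_empty_iff.2 hcon, measure_empty] at h1
      exact zero_ne_one h1
    exact nonempty_coe_sort.1 this
  by_cases htop : ∫⁻ x, nlog (β {J : I | x ∈ (J : Set Ω)}).toReal ∂π = ⊤
  · rw [htop]; exact le_top
  · set R := (∫⁻ x, nlog (β {J : I | x ∈ (J : Set Ω)}).toReal ∂π).toReal with hR
    have hRE : ENNReal.ofReal R = ∫⁻ x, nlog (β {J : I | x ∈ (J : Set Ω)}).toReal ∂π :=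
      ENNReal.ofReal_toReal htop
    rw [← hRE]
    apply stepC hI hne
    intro ε h0 h1
    apply le_of_forall_pos_le_add
    intro κ hκ
    obtain ⟨b, c₁, c₂, hbm, hc₁, hb1, hb2, hJ, hval⟩ := dual_cert (π := π) hI hne h0 h1 hκ
    have := weak_dual (π := π) (β := β) (J := fun J : I => (J : Set Ω)) (fun y => hI _ y.2) hcomp
      hbm hc₁ hb1 hb2 (fun y => hJ _ y.2) ENNReal.toReal_nonneg hRE.ge
    linarith

/-- countable combinations are given by compatible measures -/
theorem full_le_cnt (hI : ∀ J ∈ I, MeasurableSet J) : Hfull I π ≤ Hcnt I π := by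
  unfold Hcnt
  apply le_iInf₂
  rintro c ⟨q, J, hJ, hq, rfl⟩
  letI mI : MeasurableSpace I := ⊤
  have hall : ∀ s : Set I, MeasurableSet s := fun _ => MeasurableSpace.measurableSet_top
  let β : Measure I := Measure.sum fun k => q k • Measure.dirac ⟨J k, hJ k⟩
  have hβ : ∀ s : Set I, β s = ∑' k, q k * s.indicator 1 (⟨J k, hJ k⟩ : I) := by
    intro s
    simp only [β]
    rw [Measure.sum_apply _ (hall s)]
    congr 1; funext k
    rw [Measure.smul_apply, Measure.dirac_apply' _ (hall s), smul_eq_mul]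
  haveI hprob : IsProbabilityMeasure β := ⟨by rw [hβ]; simp [hq]⟩
  have hcomp : NullMeasurableSet {p : I × Ω | p.2 ∈ (p.1 : Set Ω)} (β.prod π) := by
    set E' : Set (I × Ω) := ⋃ k, {(⟨J k, hJ k⟩ : I)} ×ˢ J k with hE'
    have hE'm : MeasurableSet E' := MeasurableSet.iUnion fun k =>
      (hall _).prod (hI _ (hJ k))
    refine hE'm.nullMeasurableSet.congr ?_
    set r : Set I := range fun k => (⟨J k, hJ k⟩ : I) with hr
    have hr0 : β rᶜ = 0 := by
      rw [hβ]
      apply ENNReal.tsum_eq_zero.2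
      intro k
      rw [indicator_of_notMem, mul_zero]
      intro h
      exact h ⟨k, rfl⟩
    have hz : (β.prod π) (rᶜ ×ˢ univ) = 0 := by rw [Measure.prod_prod, hr0, zero_mul]
    filter_upwards [compl_mem_ae_iff.2 hz] with p hp
    have hp1 : p.1 ∈ r := by
      by_contra h
      exact hp ⟨h, mem_univ _⟩
    obtain ⟨k, hk⟩ := hp1
    apply propext
    constructor
    · intro h
      obtain ⟨l, hl1, hl2⟩ := mem_iUnion.1 h
      have : p.1 = ⟨J l, hJ l⟩ := hl1
      change p.2 ∈ (p.1 : Set Ω)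
      rw [this]; exact hl2
    · intro h
      have h' : p.2 ∈ (p.1 : Set Ω) := h
      rw [← hk] at h'
      exact mem_iUnion.2 ⟨k, hk.symm, h'⟩
  refine iInf_le_of_le ⟨mI, β, hprob, hcomp⟩ (le_of_eq ?_)
  apply lintegral_congr
  intro x
  congr 2
  change β {J : I | x ∈ (J : Set Ω)} = _
  rw [hβ]
  congr 1

end dual

/-! ### Conclusion -/

theorem low_empty {π : Measure Ω} [IsProbabilityMeasure π] {lam : ℝ} (hlam : lam < 1) :
    Hlow (∅ : Set (Set Ω)) π lam = ⊤ := by
  have h : ∀ᶠ ℓ : ℕ in atTop, (Ncov (∅ : Set (Set Ω)) π lam ℓ).log / (ℓ : EReal) = ⊤ := by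
    filter_upwards [eventually_gt_atTop 0] with ℓ hℓ
    have hN : Ncov (∅ : Set (Set Ω)) π lam ℓ = ⊤ := by
      unfold Ncov
      rw [iInf₂_eq_top]
      rintro S ⟨hS, hm⟩
      exfalso
      have hS0 : S = ∅ := by
        rw [Finset.eq_empty_iff_forall_notMem]
        intro B hB
        obtain ⟨J, hJ, -⟩ := hS B hB
        exact hJ ⟨0, hℓ⟩
      rw [hS0] at hm
      simp at hm
      linarith
    rw [hN, ENNReal.log_top]
    exact EReal.top_div_of_pos_ne_top (by exact_mod_cast hℓ) (EReal.natCast_ne_top ℓ)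
  unfold Hlow
  rw [liminf_congr h]
  simp

theorem low_ge {π : Measure Ω} [IsProbabilityMeasure π] {I : Set (Set Ω)}
    (hI : ∀ J ∈ I, MeasurableSet J) {lam : ℝ} (hlam : lam < 1) :
    (Hcnt I π : EReal) ≤ Hlow I π lam := by
  rcases I.eq_empty_or_nonempty with h | hne
  · subst h
    rw [low_empty hlam]; exact le_top
  by_cases htop : Hlow I π lam = ⊤
  · rw [htop]; exact le_top
  have hlow : ∀ ε κ : ℝ, 0 < ε → ε < 1 → 0 < κ →
      ((Ve I π ε + Real.log (1 - ε) - κ : ℝ) : EReal) ≤ Hlow I π lam := by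
    intro ε κ h0 h1 hκ
    obtain ⟨b, c₁, c₂, hbm, hc₁, hb1, hb2, hJ, hval⟩ := dual_cert (π := π) hI hne h0 h1 (half_pos hκ)
    refine le_trans ?_ (low_bound hI hbm hc₁ hb1 hb2 hJ hlam (show 0 < κ / 4 by linarith))
    rw [EReal.coe_le_coe_iff]
    linarith
  have hbot : Hlow I π lam ≠ ⊥ := by
    intro h
    have h1 := hlow (1/2) 1 (by norm_num) (by norm_num) one_pos
    rw [h, le_bot_iff] at h1
    exact EReal.coe_ne_bot _ h1
  set R := (Hlow I π lam).toReal with hR
  have hRE : (R : EReal) = Hlow I π lam := EReal.coe_toReal htop hbot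
  have hVR : ∀ ε, 0 < ε → ε < 1 → Ve I π ε + Real.log (1 - ε) ≤ R := by
    intro ε h0 h1
    apply le_of_forall_pos_le_add
    intro κ hκ
    have h2 := hlow ε κ h0 h1 hκ
    rw [← hRE, EReal.coe_le_coe_iff] at h2
    linarith
  have hR0 : 0 ≤ R := by
    have h1 := Ve_le_R (π := π) hI hne hVR (show (0:ℝ) < 1/2 by norm_num) (by norm_num)
    have h2 : 0 ≤ Ve I π (1/2) := by
      apply Real.sInf_nonneg
      rintro _ ⟨c, hc, rfl⟩
      exact Fe_nonneg (by norm_num) (by norm_num) hc
    linarith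
  have h := stepC hI hne hVR
  rw [← hRE]
  calc (Hcnt I π : EReal) ≤ (ENNReal.ofReal R : EReal) := by exact_mod_cast h
    _ = (R : EReal) := by rw [EReal.coe_ennreal_ofReal, max_eq_left hR0]

/-- **Q1 (negative answer).** For every probability space and every system of measurable sets the
compatible-measure bound, the countable bound and the lower bound of the covering numbers match;
in particular the upper covering entropy is never smaller than the compatible-measure bound. -/
theorem result :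
    ∀ (Ω : Type u) [MeasurableSpace Ω] (π : Measure Ω) [IsProbabilityMeasure π]
      (I : Set (Set Ω)), (∀ J ∈ I, MeasurableSet J) →
      Hcnt I π = Hfull I π ∧ ∀ lam : ℝ, 0 < lam → lam < 1 →
        (Hfull I π : EReal) ≤ Hlow I π lam ∧ ¬ Hup I π lam < (Hfull I π : EReal) := by
  intro Ω _ π _ I hI
  have h1 : Hcnt I π = Hfull I π := le_antisymm (cnt_le_full hI) (full_le_cnt hI)
  refine ⟨h1, fun lam _ hlam => ?_⟩
  have h2 := low_ge (π := π) hI hlam
  rw [h1] at h2
  refine ⟨h2, not_lt.2 (h2.trans ?_)⟩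
  exact liminf_le_limsup (by isBoundedDefault) (by isBoundedDefault)

end Pool.Agent.Results.MP_87c4bd_co.CoveringEntropy
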